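import Mathlib

/-!
# Self-similar permutation groups of Grigorchuk-Erschler type (helper896)

`X` is identified with `X × Bool`, `a` flips the digit, `c = (a, d)` and `d = (1, c)`.
-/

set_option autoImplicit false

namespace Pool.Agent.Y896.TF

open Equiv

/-- The letters `b = c d`, `c`, `d`. -/
inductive U where
  | b : U
  | c : U
  | d : U
deriving DecidableEq

instance : Fintype U := ⟨{U.b, U.c, U.d}, by intro x; cases x <;> simp⟩

/-- The recursion of the Grigorchuk-Erschler group on a set `X ≃ X × Bool`. -/
structure SS (X : Type) where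
  Φ : X × Bool ≃ X
  a : Perm X
  c : Perm X
  d : Perm X
  ha : ∀ x t, a (Φ (x, t)) = Φ (x, !t)
  hc1 : ∀ x, c (Φ (x, true)) = Φ (a x, true)
  hc0 : ∀ x, c (Φ (x, false)) = Φ (d x, false)
  hd1 : ∀ x, d (Φ (x, true)) = Φ (x, true)
  hd0 : ∀ x, d (Φ (x, false)) = Φ (c x, false)
  cc : c * c = 1
  dd : d * d = 1
  cd : c * d = d * c

namespace SS

variable {X : Type} (S : SS X)

theorem ext2 {σ τ : Perm X} (h : ∀ x t, σ (S.Φ (x, t)) = τ (S.Φ (x, t))) : σ = τ := by
  ext y
  obtain ⟨⟨x, t⟩, rfl⟩ := S.Φ.surjective y
  exact h x t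

theorem aa : S.a * S.a = 1 := by
  apply S.ext2
  intro x t
  rw [Perm.mul_apply, S.ha, S.ha, Bool.not_not]
  rfl

/-- The values of the letters. -/
def val : U → Perm X
  | U.b => S.c * S.d
  | U.c => S.c
  | U.d => S.d

/-- The value of a letter `a` or a letter of `U`. -/
def lv : Option U → Perm X
  | none => S.a
  | some y => S.val y

/-- the weights of the letters -/
def w : U → ℕ
  | U.b => 1
  | U.c => 2
  | U.d => 1

/-- the weights of the letters, with `a` -/
def lw : Option U → ℕ
  | none => 2
  | some y => w y

/-- `ν y = w y + 2` -/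
def nu : U → ℕ
  | U.b => 3
  | U.c => 4
  | U.d => 3

/-- one for `c` and `d` -/
def mm : U → ℕ
  | U.b => 0
  | U.c => 1
  | U.d => 1

/-- the weight of `y₁ a y₂ a ⋯ y_k a` -/
def W (u : List U) : ℕ := (u.map nu).sum

/-- the number of letters `c`, `d` -/
def M (u : List U) : ℕ := (u.map mm).sum

/-- `a` or `1` -/
def sg (i : Bool) : Perm X := bif i then S.a else 1

/-- `y₁ a y₂ a ⋯ y_k a` -/
def P (u : List U) : Perm X := (u.map fun y => S.val y * S.a).prod

/-- `a^i y₁ a y₂ a ⋯ y_k a a^j` -/
def E (i : Bool) (u : List U) (j : Bool) : Perm X := S.sg i * S.P u * S.sg j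

/-- the potential -/
def pot (i : Bool) : List U → ℕ
  | [] => bif i then 2 else 0
  | y :: u => (bif i then 2 else 0) + w y + W u

theorem W_le_pot (i : Bool) (u : List U) : W u ≤ pot i u + 2 := by
  cases u with
  | nil => simp [W]
  | cons y u =>
    have : nu y = w y + 2 := by cases y <;> rfl
    simp only [W, pot, List.map_cons, List.sum_cons, this]
    omega

theorem sg_a (i : Bool) : S.a * S.sg i = S.sg (!i) := by
  cases i
  · simp [sg]
  · simp [sg, S.aa]

theorem bb : (S.c * S.d) * (S.c * S.d) = 1 := by
  rw [mul_assoc, ← mul_assoc S.d, ← S.cd, mul_assoc S.c S.d S.d, S.dd, mul_one, S.cc]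

theorem val_sq (y : U) : S.val y * S.val y = 1 := by
  cases y
  · exact S.bb
  · exact S.cc
  · exact S.dd

/-- the product of two letters -/
theorem val_mul (y y' : U) : y = y' ∨ ∃ y'', S.val y * S.val y' = S.val y'' ∧
    w y'' ≤ w y + w y' := by
  cases y <;> cases y'
  · exact Or.inl rfl
  · refine Or.inr ⟨U.d, ?_, by simp [w]⟩
    change S.c * S.d * S.c = S.d
    rw [S.cd, mul_assoc, S.cc, mul_one]
  · refine Or.inr ⟨U.c, ?_, by simp [w]⟩
    change S.c * S.d * S.d = S.c
    rw [mul_assoc, S.dd, mul_one]
  · refine Or.inr ⟨U.d, ?_, by simp [w]⟩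
    change S.c * (S.c * S.d) = S.d
    rw [← mul_assoc, S.cc, one_mul]
  · exact Or.inl rfl
  · refine Or.inr ⟨U.b, rfl, by simp [w]⟩
  · refine Or.inr ⟨U.c, ?_, by simp [w]⟩
    change S.d * (S.c * S.d) = S.c
    rw [S.cd, ← mul_assoc, S.dd, one_mul]
  · refine Or.inr ⟨U.b, ?_, by simp [w]⟩
    change S.d * S.c = S.c * S.d
    rw [S.cd]
  · exact Or.inl rfl

/-- alternating form of a word -/
theorem rep (z : List (Option U)) : ∃ i u j, (z.map S.lv).prod = S.E i u j ∧
    pot i u ≤ (z.map lw).sum := by
  induction z with
  | nil => exact ⟨false, [], false, by simp [E, sg, P], by simp [pot]⟩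
  | cons x z ih =>
    obtain ⟨i, u, j, h1, h2⟩ := ih
    rw [List.map_cons, List.prod_cons, h1, List.map_cons, List.sum_cons]
    cases x with
    | none =>
      refine ⟨!i, u, j, ?_, ?_⟩
      · change S.a * S.E i u j = _
        unfold E
        rw [← mul_assoc, ← mul_assoc, S.sg_a]
      · change pot (!i) u ≤ 2 + _
        have : pot (!i) u ≤ 2 + pot i u := by
          cases u <;> cases i <;> simp [pot] <;> omega
        omega
    | some y =>
      change ∃ i' u' j', S.val y * S.E i u j = S.E i' u' j' ∧ pot i' u' ≤ w y + _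
      cases i with
      | true =>
        refine ⟨false, y :: u, j, ?_, ?_⟩
        · simp only [E, sg, P, List.map_cons, List.prod_cons, cond_true, cond_false, mul_assoc,
            one_mul]
        · have h3 : W u ≤ pot true u := by
            cases u with
            | nil => simp [W, pot]
            | cons y' u' =>
              have : nu y' = w y' + 2 := by cases y' <;> rfl
              simp only [W, pot, List.map_cons, List.sum_cons, this, cond_true]
              omega
          simp only [pot, cond_false]
          omega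
      | false =>
        cases u with
        | nil =>
          refine ⟨false, [y], !j, ?_, ?_⟩
          · have : S.sg (!j) = S.a * S.sg j := (S.sg_a j).symm
            simp only [E, sg, P, List.map_nil, List.prod_nil, List.map_cons, List.prod_cons,
              cond_false, one_mul, mul_one]
            change S.val y * S.sg j = S.val y * S.a * S.sg (!j)
            rw [this, mul_assoc, ← mul_assoc S.a, S.aa, one_mul]
          · simp [pot, W]
        | cons y' u =>
          rcases S.val_mul y y' with rfl | ⟨y'', h3, h4⟩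
          · refine ⟨true, u, j, ?_, ?_⟩
            · simp only [E, sg, P, List.map_cons, List.prod_cons, cond_false, cond_true, one_mul]
              rw [← mul_assoc, ← mul_assoc, ← mul_assoc, S.val_sq, one_mul]
            · have h5 : pot true u ≤ 2 + W u := by
                cases u with
                | nil => simp [W, pot]
                | cons y' u' =>
                  have : nu y' = w y' + 2 := by cases y' <;> rfl
                  simp only [W, pot, List.map_cons, List.sum_cons, this, cond_true]
                  omega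
              have h6 : 1 ≤ w y := by cases y <;> simp [w]
              simp only [pot, cond_false] at h2
              omega
          · refine ⟨false, y'' :: u, j, ?_, ?_⟩
            · simp only [E, sg, P, List.map_cons, List.prod_cons, cond_false, one_mul]
              rw [← h3]
              simp only [mul_assoc]
            · simp only [pot, cond_false] at h2 ⊢
              omega

/-- the section of a letter of `U` at the digit `t` -/
def sec : U → Bool → List (Option U)
  | U.b, true => [none]
  | U.b, false => [some U.b]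
  | U.c, true => [none]
  | U.c, false => [some U.d]
  | U.d, true => []
  | U.d, false => [some U.c]

theorem sec_spec (y : U) (x : X) (t : Bool) :
    S.val y (S.Φ (x, t)) = S.Φ ((((sec y t).map S.lv).prod) x, t) := by
  cases y <;> cases t
  · change S.c (S.d (S.Φ (x, false))) = _
    rw [S.hd0, S.hc0]
    congr 2
    have : S.d * S.c = S.c * S.d := S.cd.symm
    have h := congrArg (fun σ : Perm X => σ x) this
    simpa [sec, lv, val] using h
  · change S.c (S.d (S.Φ (x, true))) = _
    rw [S.hd1, S.hc1]
    simp [sec, lv]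
  · change S.c (S.Φ (x, false)) = _
    rw [S.hc0]
    simp [sec, lv, val]
  · change S.c (S.Φ (x, true)) = _
    rw [S.hc1]
    simp [sec, lv]
  · change S.d (S.Φ (x, false)) = _
    rw [S.hd0]
    simp [sec, lv, val]
  · change S.d (S.Φ (x, true)) = _
    rw [S.hd1]
    simp [sec]

theorem sec_sum (y : U) (t : Bool) :
    ((sec y t).map lw).sum + ((sec y (!t)).map lw).sum + mm y = nu y := by
  cases y <;> cases t <;> rfl

/-- the section of `P u` at the digit `t` -/
def zz : List U → Bool → List (Option U) × Bool
  | [], t => ([], t)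
  | y :: u, t => (sec y (!(zz u t).2) ++ (zz u t).1, !(zz u t).2)

theorem zz_spec (u : List U) (x : X) (t : Bool) :
    S.P u (S.Φ (x, t)) = S.Φ ((((zz u t).1.map S.lv).prod) x, (zz u t).2) := by
  induction u with
  | nil => simp [P, zz]
  | cons y u ih =>
    have e : S.P (y :: u) = S.val y * S.a * S.P u := by simp [P]
    rw [e, Perm.mul_apply, ih, Perm.mul_apply, S.ha, S.sec_spec]
    simp [zz]

theorem zz_not (u : List U) (t : Bool) : (zz u (!t)).2 = !(zz u t).2 := by
  induction u with
  | nil => rfl
  | cons y u ih => simp only [zz, ih]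

theorem zz_sum (u : List U) (t : Bool) :
    (((zz u t).1.map lw).sum + ((zz u (!t)).1.map lw).sum) + M u = W u := by
  induction u with
  | nil => simp [zz, M, W]
  | cons y u ih =>
    have h := sec_sum y (!(zz u t).2)
    have h2 := zz_not u t
    simp only [zz, M, W, List.map_append, List.sum_append, List.map_cons, List.sum_cons] at ih ⊢
    rw [h2]
    omega

/-- the group generated by `a`, `c`, `d` -/
def G : Subgroup (Perm X) := Subgroup.closure {S.a, S.c, S.d}

theorem a_mem : S.a ∈ S.G := Subgroup.subset_closure (by simp)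
theorem c_mem : S.c ∈ S.G := Subgroup.subset_closure (by simp)
theorem d_mem : S.d ∈ S.G := Subgroup.subset_closure (by simp)

theorem lv_mem (y : Option U) : S.lv y ∈ S.G := by
  rcases y with _ | y
  · exact S.a_mem
  · cases y
    · exact S.G.mul_mem S.c_mem S.d_mem
    · exact S.c_mem
    · exact S.d_mem

theorem prod_mem (z : List (Option U)) : (z.map S.lv).prod ∈ S.G := by
  apply Subgroup.list_prod_mem
  intro x hx
  obtain ⟨y, _, rfl⟩ := List.mem_map.1 hx
  exact S.lv_mem y

theorem inv_a : S.a⁻¹ = S.a := inv_eq_of_mul_eq_one_left S.aa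
theorem inv_c : S.c⁻¹ = S.c := inv_eq_of_mul_eq_one_left S.cc
theorem inv_d : S.d⁻¹ = S.d := inv_eq_of_mul_eq_one_left S.dd

theorem exists_word {g : Perm X} (hg : g ∈ S.G) : ∃ z : List (Option U), (z.map S.lv).prod = g := by
  unfold G at hg
  induction hg using Subgroup.closure_induction with
  | mem x hx =>
    simp only [Set.mem_insert_iff, Set.mem_singleton_iff] at hx
    rcases hx with rfl | rfl | rfl
    · exact ⟨[none], by simp [lv]⟩
    · exact ⟨[some U.c], by simp [lv, val]⟩
    · exact ⟨[some U.d], by simp [lv, val]⟩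
  | one => exact ⟨[], by simp⟩
  | mul x y _ _ hx hy =>
    obtain ⟨z, rfl⟩ := hx
    obtain ⟨z', rfl⟩ := hy
    exact ⟨z ++ z', by simp⟩
  | inv x _ hx =>
    obtain ⟨z, rfl⟩ := hx
    refine ⟨z.reverse, ?_⟩
    rw [List.prod_inv_reverse, List.map_reverse, List.map_map]
    congr 2
    apply List.map_congr_left
    intro y _
    rcases y with _ | y
    · exact S.inv_a.symm
    · exact (inv_eq_of_mul_eq_one_left (S.val_sq y)).symm

theorem exists_E {g : Perm X} (hg : g ∈ S.G) : ∃ n : ℕ, ∃ i u j, S.E i u j = g ∧ W u = n := by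
  obtain ⟨z, rfl⟩ := S.exists_word hg
  obtain ⟨i, u, j, h, _⟩ := S.rep z
  exact ⟨W u, i, u, j, h.symm, rfl⟩

open Classical in
/-- the weighted length -/
noncomputable def N (g : S.G) : ℕ := Nat.find (S.exists_E g.2)

theorem N_spec (g : S.G) : ∃ i u j, S.E i u j = g ∧ W u = S.N g := by
  classical
  exact Nat.find_spec (S.exists_E g.2)

theorem N_le (g : S.G) {i : Bool} {u : List U} {j : Bool} (h : S.E i u j = g) : S.N g ≤ W u := by
  classical
  exact Nat.find_min' (S.exists_E g.2) ⟨i, u, j, h, rfl⟩

theorem N_word (g : S.G) {z : List (Option U)} (h : (z.map S.lv).prod = g) :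
    S.N g ≤ (z.map lw).sum + 2 := by
  obtain ⟨i, u, j, h1, h2⟩ := S.rep z
  have h3 := S.N_le g (h1.symm.trans h)
  have h4 := W_le_pot i u
  omega

/-- a chosen minimal representation -/
noncomputable def ri (g : S.G) : Bool := (S.N_spec g).choose
noncomputable def ru (g : S.G) : List U := (S.N_spec g).choose_spec.choose
noncomputable def rj (g : S.G) : Bool := (S.N_spec g).choose_spec.choose_spec.choose

theorem r_spec (g : S.G) : S.E (S.ri g) (S.ru g) (S.rj g) = g :=
  (S.N_spec g).choose_spec.choose_spec.choose_spec.1

theorem r_W (g : S.G) : W (S.ru g) = S.N g :=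
  (S.N_spec g).choose_spec.choose_spec.choose_spec.2

theorem sg_apply (i : Bool) (x : X) (t : Bool) : S.sg i (S.Φ (x, t)) = S.Φ (x, xor i t) := by
  cases i
  · simp [sg]
  · simp [sg, S.ha]

/-- the sections of an element -/
theorem sections (g : S.G) : ∃ (f : Bool → S.G) (e : Bool), (∀ x t, (g : Perm X) (S.Φ (x, t)) =
    S.Φ ((f t : Perm X) x, xor e t)) ∧ S.N (f true) + S.N (f false) + M (S.ru g) ≤ S.N g + 4 := by
  have hg := S.r_spec g
  have hW := S.r_W g
  set i := S.ri g
  set u := S.ru g
  set j := S.rj g
  refine ⟨fun t => ⟨_, S.prod_mem (zz u (xor j t)).1⟩, xor i (xor (zz u j).2 false), ?_, ?_⟩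
  · intro x t
    rw [← hg]
    unfold E
    rw [Perm.mul_apply, Perm.mul_apply, S.sg_apply, S.zz_spec, S.sg_apply]
    congr 2
    cases t
    · simp
    · have : (zz u (xor j true)).2 = !(zz u j).2 := by
        rw [Bool.xor_true]
        exact zz_not u j
      rw [this]
      cases i <;> cases (zz u j).2 <;> rfl
  · have h1 : S.N ⟨_, S.prod_mem (zz u (xor j true)).1⟩ ≤
      ((zz u (xor j true)).1.map lw).sum + 2 := S.N_word _ rfl
    have h2 : S.N ⟨_, S.prod_mem (zz u (xor j false)).1⟩ ≤
      ((zz u (xor j false)).1.map lw).sum + 2 := S.N_word _ rfl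
    have h3 := zz_sum u j
    have h4 : xor j true = !j := Bool.xor_true j
    have h5 : xor j false = j := Bool.xor_false j
    change S.N ⟨_, S.prod_mem (zz u (xor j true)).1⟩ +
      S.N ⟨_, S.prod_mem (zz u (xor j false)).1⟩ + M u ≤ S.N g + 4
    have h6 : ((zz u (xor j true)).1.map lw).sum + ((zz u (xor j false)).1.map lw).sum + M u =
        W u := by
      rw [h4, h5]
      omega
    omega

end SS

end Pool.Agent.Y896.TF
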