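import Mathlib

/-!
# Topological full groups of subshifts: definitions (helper896)
-/

set_option autoImplicit false

namespace Pool.Agent.Y896.TF

open Filter

/-- The elements of `G` of word length at most `n` with respect to `S`. -/
def ball {G : Type} [Group G] (S : Finset G) (n : ℕ) : Set G :=
  {g | ∃ l : List G, l.length ≤ n ∧ (∀ x ∈ l, x ∈ S ∨ x⁻¹ ∈ S) ∧ l.prod = g}

/-- The group `G` is finitely generated, and for every finite generating set the number of the
elements of word length at most `n` grows faster than every polynomial in `n` and slower than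
`exp (c n)` for every `c > 0`. -/
def IntermediateGrowth (G : Type) [Group G] : Prop :=
  Group.FG G ∧ ∀ S : Finset G, Subgroup.closure (S : Set G) = ⊤ →
    (∀ k : ℕ, ∀ᶠ n : ℕ in atTop, n ^ k < (ball S n).ncard) ∧
    ∀ c : ℝ, 0 < c → ∀ᶠ n : ℕ in atTop, ((ball S n).ncard : ℝ) < Real.exp (c * n)

/-- The group `G` has a finitely generated subgroup of intermediate growth. -/
def HasIntermediateSubgroup (G : Type) [Group G] : Prop :=
  ∃ H : Subgroup G, IntermediateGrowth H

/-- The homeomorphism `g` is given by `g x = T ^ (n x) x` for a continuous map `n` to the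
integers. -/
def InFull {X : Type} [TopologicalSpace X] (T g : X ≃ₜ X) : Prop :=
  ∃ n : X → ℤ, Continuous n ∧ ∀ x, g x = (T ^ n x) x

theorem InFull.mul {X : Type} [TopologicalSpace X] {T g h : X ≃ₜ X} (hg : InFull T g)
    (hh : InFull T h) : InFull T (g * h) := by
  obtain ⟨m, hm, hg⟩ := hg
  obtain ⟨n, hn, hh⟩ := hh
  refine ⟨fun x => m (h x) + n x, (hm.comp h.continuous).add hn, fun x => ?_⟩
  rw [zpow_add]
  change g (h x) = (T ^ m (h x)) ((T ^ n x) x)
  rw [← hh x]
  exact hg (h x)

theorem InFull.one {X : Type} [TopologicalSpace X] {T : X ≃ₜ X} : InFull T 1 :=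
  ⟨fun _ => 0, continuous_const, fun x => by rw [zpow_zero]⟩

theorem InFull.inv {X : Type} [TopologicalSpace X] {T g : X ≃ₜ X} (hg : InFull T g) :
    InFull T g⁻¹ := by
  obtain ⟨n, hn, hg⟩ := hg
  refine ⟨fun x => - n (g.symm x), (hn.comp g.symm.continuous).neg, fun x => ?_⟩
  have h := hg (g.symm x)
  rw [g.apply_symm_apply] at h
  rw [zpow_neg]
  exact ((T ^ n (g.symm x)).toEquiv.symm_apply_eq.2 h).symm

/-- The topological full group of the homeomorphism `T`: the homeomorphisms `g` such that
`g x = T ^ (n x) x` for a continuous map `n` to the integers. -/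
def fullGroup {X : Type} [TopologicalSpace X] (T : X ≃ₜ X) : Subgroup (X ≃ₜ X) where
  carrier := {g | InFull T g}
  mul_mem' := InFull.mul
  one_mem' := InFull.one
  inv_mem' := InFull.inv

/-- The Thue-Morse substitution `0 ↦ 01`, `1 ↦ 10`, with `0 = false` and `1 = true`. -/
def mu : Bool → List Bool
  | false => [false, true]
  | true => [true, false]

/-- The Thue-Morse substitution on words. -/
def sub (w : List Bool) : List Bool := w.flatMap mu

/-- The Morse subshift: the bi-infinite sequences all of whose finite subwords occur in the words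
obtained from the letters by iterating the substitution. -/
def Morse : Set (ℤ → Bool) :=
  {x | ∀ (i : ℤ) (l : ℕ), ∃ (n : ℕ) (a : Bool), 1 ≤ n ∧
    (List.ofFn fun j : Fin l => x (i + j)) <:+: sub^[n] [a]}

theorem Morse_shift {x : ℤ → Bool} (hx : x ∈ Morse) (k : ℤ) : (fun i => x (i + k)) ∈ Morse := by
  intro i l
  obtain ⟨n, a, hn, h⟩ := hx (i + k) l
  refine ⟨n, a, hn, ?_⟩
  have e : (fun j : Fin l => x (i + j + k)) = fun j : Fin l => x (i + k + j) := by
    funext j
    congr 1
    ring
  change (List.ofFn fun j : Fin l => x (i + j + k)) <:+: _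
  rw [e]
  exact h

/-- The translate of a sequence by `k`. -/
def sh (k : ℤ) (x : Morse) : Morse := ⟨fun i => x.1 (i + k), Morse_shift x.2 k⟩

theorem continuous_sh (k : ℤ) : Continuous (sh k) := by
  refine Continuous.subtype_mk ?_ _
  exact continuous_pi fun i => (continuous_apply (i + k)).comp continuous_subtype_val

theorem sh_left (x : Morse) : sh (-1) (sh 1 x) = x := by
  apply Subtype.ext
  funext i
  change x.1 (i + -1 + 1) = x.1 i
  rw [neg_add_cancel_right]

theorem sh_right (x : Morse) : sh 1 (sh (-1) x) = x := by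
  apply Subtype.ext
  funext i
  change x.1 (i + 1 + -1) = x.1 i
  rw [add_neg_cancel_right]

/-- The left shift of the Morse subshift: `(T x) i = x (i + 1)`. -/
def T : Morse ≃ₜ Morse where
  toFun := sh 1
  invFun := sh (-1)
  left_inv := sh_left
  right_inv := sh_right
  continuous_toFun := continuous_sh 1
  continuous_invFun := continuous_sh (-1)

end Pool.Agent.Y896.TF
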