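import Pool.Agent.Y896.TF.Abs

/-!
# Subexponential growth (helper896)
-/

set_option autoImplicit false

namespace Pool.Agent.Y896.TF

open Equiv
open scoped ENNReal

/-- the sum over lists of a product is a geometric series -/
theorem tsum_list {α : Type} [Fintype α] (f : α → ℝ≥0∞) :
    ∑' l : List α, (l.map f).prod = ∑' n : ℕ, (∑ x, f x) ^ n := by
  classical
  rw [← (List.equivSigmaTuple (α := α)).symm.tsum_eq, ENNReal.tsum_sigma']
  congr 1
  funext n
  rw [tsum_fintype, Fintype.sum_pow]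
  refine Finset.sum_congr rfl fun p _ => ?_
  have : (List.equivSigmaTuple (α := α)).symm ⟨n, p⟩ = List.ofFn p := rfl
  rw [this, List.map_ofFn, List.prod_ofFn]
  rfl

theorem tsum_list_ne_top {α : Type} [Fintype α] (f : α → ℝ≥0∞) (h : ∑ x, f x < 1) :
    ∑' l : List α, (l.map f).prod ≠ ∞ := by
  rw [tsum_list, ENNReal.tsum_geometric]
  exact ENNReal.inv_ne_top.2 (tsub_pos_of_lt h).ne'

namespace SS

variable {X : Type} (S : SS X)

/-- the generating function -/
noncomputable def Z (s : ℝ≥0∞) : ℝ≥0∞ := ∑' g : S.G, s ^ S.N g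

theorem Z_mono {s t : ℝ≥0∞} (h : s ≤ t) : S.Z s ≤ S.Z t :=
  ENNReal.tsum_le_tsum fun g => pow_le_pow_left' h _

theorem prod_pow {α : Type} (u : List α) (f : α → ℕ) (s : ℝ≥0∞) :
    (u.map fun y => s ^ f y).prod = s ^ (u.map f).sum := by
  induction u with
  | nil => simp
  | cons y u ih => simp only [List.map_cons, List.prod_cons, List.sum_cons, ih, pow_add]

/-- sums over elements with a property of the chosen representation -/
theorem sum_rep (p : List U → Prop) [DecidablePred p] (s : ℝ≥0∞) :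
    ∑' g : S.G, (if p (S.ru g) then s ^ S.N g else 0) ≤
      4 * ∑' u : List U, (if p u then s ^ W u else 0) := by
  have hinj : Function.Injective (fun g : S.G => ((S.ri g, S.rj g), S.ru g)) := by
    intro g h hgh
    simp only [Prod.mk.injEq] at hgh
    have h1 := S.r_spec g
    have h2 := S.r_spec h
    rw [hgh.1.1, hgh.1.2, hgh.2, h2] at h1
    exact Subtype.ext h1.symm
  calc ∑' g : S.G, (if p (S.ru g) then s ^ S.N g else 0)
      = ∑' g : S.G, (fun q : (Bool × Bool) × List U => if p q.2 then s ^ W q.2 else 0)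
          ((S.ri g, S.rj g), S.ru g) := by
        congr 1
        funext g
        simp only [S.r_W g]
    _ ≤ ∑' q : (Bool × Bool) × List U, (if p q.2 then s ^ W q.2 else 0) :=
        ENNReal.tsum_comp_le_tsum_of_injective hinj _
    _ = 4 * ∑' u : List U, (if p u then s ^ W u else 0) := by
        rw [ENNReal.tsum_prod']
        simp only
        rw [tsum_fintype, Finset.sum_const]
        simp

/-- the series converges for `s = 1 / 2` -/
theorem Z_half : S.Z (1 / 2) ≠ ∞ := by
  have h := S.sum_rep (fun _ => True) (1 / 2)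
  simp only [if_true] at h
  refine ne_top_of_le_ne_top (ENNReal.mul_ne_top (by norm_num) ?_) h
  have h2 : ∀ u : List U, (1 / 2 : ℝ≥0∞) ^ W u = (u.map fun y => (1 / 2 : ℝ≥0∞) ^ nu y).prod := by
    intro u
    rw [prod_pow]
    rfl
  simp only [h2]
  apply tsum_list_ne_top
  have h3 : (Finset.univ : Finset U) = {U.b, U.c, U.d} := rfl
  rw [h3, Finset.sum_insert (by simp), Finset.sum_insert (by simp), Finset.sum_singleton]
  simp only [nu]
  have e1 : (1 / 2 : ℝ≥0∞) = ENNReal.ofReal (1 / 2) := by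
    rw [ENNReal.ofReal_div_of_pos (by norm_num)]
    simp
  rw [e1, ← ENNReal.ofReal_pow (by norm_num), ← ENNReal.ofReal_pow (by norm_num),
    ← ENNReal.ofReal_add (by norm_num) (by norm_num),
    ← ENNReal.ofReal_add (by norm_num) (by norm_num), ← ENNReal.ofReal_one]
  exact (ENNReal.ofReal_lt_ofReal_iff (by norm_num)).2 (by norm_num)

/-- the part of the elements with few letters `c`, `d` -/
noncomputable def FF (q : ℕ) (s : ℝ≥0∞) : ℝ≥0∞ :=
  ∑' u : List U, (if (q + 1) * M u ≤ W u then s ^ W u else 0)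

theorem FF_mono (q : ℕ) {s t : ℝ≥0∞} (h : s ≤ t) : FF q s ≤ FF q t := by
  refine ENNReal.tsum_le_tsum fun u => ?_
  split_ifs
  · exact pow_le_pow_left' h _
  · exact le_rfl

/-- for real `p < 1` and `q` large the part is finite at `s = p ^ 2` -/
theorem FF_ne_top (p : ℝ) (hp0 : 0 < p) (hp : p < 1) :
    ∃ q : ℕ, 1 ≤ q ∧ FF q (ENNReal.ofReal (p ^ 2)) ≠ ∞ := by
  have h1 : Filter.Tendsto (fun q : ℕ => p ^ 3 + p ^ (q + 1) * (p ^ 4 + p ^ 3)) Filter.atTop
      (nhds (p ^ 3 + 0 * (p ^ 4 + p ^ 3))) := by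
    refine Filter.Tendsto.const_add _ (Filter.Tendsto.mul_const _ ?_)
    exact (tendsto_pow_atTop_nhds_zero_of_lt_one hp0.le hp).comp (Filter.tendsto_add_atTop_nat 1)
  have h2 : p ^ 3 + 0 * (p ^ 4 + p ^ 3) < 1 := by
    rw [zero_mul, add_zero]
    exact pow_lt_one₀ hp0.le hp (by norm_num)
  obtain ⟨q, hq, hq1⟩ := ((h1.eventually (gt_mem_nhds h2)).and
    (Filter.eventually_ge_atTop 1)).exists
  refine ⟨q, hq1, ?_⟩
  set P := ENNReal.ofReal p with hP
  have hP1 : P ≤ 1 := by
    rw [hP, ← ENNReal.ofReal_one]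
    exact ENNReal.ofReal_le_ofReal hp.le
  have hle : FF q (ENNReal.ofReal (p ^ 2)) ≤
      ∑' u : List U, (u.map fun y => P ^ (nu y + (q + 1) * mm y)).prod := by
    refine ENNReal.tsum_le_tsum fun u => ?_
    split_ifs with h
    · rw [prod_pow]
      have e : (u.map fun y => nu y + (q + 1) * mm y).sum = W u + (q + 1) * M u := by
        unfold W M
        clear h
        induction u with
        | nil => simp
        | cons y u ih =>
          simp only [List.map_cons, List.sum_cons, ih]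
          ring
      rw [e, ENNReal.ofReal_pow hp0.le, ← hP, ← pow_mul]
      exact pow_le_pow_right_of_le_one' hP1 (by omega)
    · exact zero_le
  refine ne_top_of_le_ne_top (tsum_list_ne_top _ ?_) hle
  have h3 : (Finset.univ : Finset U) = {U.b, U.c, U.d} := rfl
  rw [h3, Finset.sum_insert (by simp), Finset.sum_insert (by simp), Finset.sum_singleton]
  simp only [nu, mm]
  rw [hP, ← ENNReal.ofReal_pow hp0.le, ← ENNReal.ofReal_pow hp0.le, ← ENNReal.ofReal_pow hp0.le,
    ← ENNReal.ofReal_add (by positivity) (by positivity),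
    ← ENNReal.ofReal_add (by positivity) (by positivity), ← ENNReal.ofReal_one]
  refine (ENNReal.ofReal_lt_ofReal_iff (by norm_num)).2 ?_
  refine lt_of_le_of_lt (le_of_eq ?_) hq
  ring

/-- the recursive inequality -/
theorem Z_rec (q : ℕ) (r : ℝ≥0∞) (hr1 : r ≤ 1) (hr0 : r ≠ 0) (hF : FF q (r ^ q) ≠ ∞)
    (hZ : S.Z (r ^ (q + 1)) ≠ ∞) : S.Z (r ^ q) ≠ ∞ := by
  classical
  have hsplit : S.Z (r ^ q) ≤ ∑' g : S.G, (if (q + 1) * M (S.ru g) ≤ W (S.ru g) then
      (r ^ q) ^ S.N g else 0) + ∑' g : S.G, (if (q + 1) * M (S.ru g) ≤ W (S.ru g) then 0 else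
      (r ^ q) ^ S.N g) := by
    rw [← ENNReal.tsum_add]
    refine ENNReal.tsum_le_tsum fun g => ?_
    split_ifs <;> simp
  have hA : ∑' g : S.G, (if (q + 1) * M (S.ru g) ≤ W (S.ru g) then (r ^ q) ^ S.N g else 0) ≠ ∞ :=
    ne_top_of_le_ne_top (ENNReal.mul_ne_top (by norm_num) hF)
      (S.sum_rep (fun u => (q + 1) * M u ≤ W u) (r ^ q))
  have hB : ∑' g : S.G, (if (q + 1) * M (S.ru g) ≤ W (S.ru g) then 0 else (r ^ q) ^ S.N g) ≠ ∞ := by
    choose f e hf hN using S.sections
    have hinj : Function.Injective (fun g : S.G => (e g, (f g true, f g false))) := by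
      intro g h hgh
      simp only [Prod.mk.injEq] at hgh
      obtain ⟨h1, h2, h3⟩ := hgh
      apply Subtype.ext
      apply S.ext2
      intro x t
      rw [hf, hf, h1]
      cases t
      · rw [h3]
      · rw [h2]
    have hsum : ∑' g : S.G, (fun v : Bool × (S.G × S.G) =>
        (r ^ (q + 1)) ^ S.N v.2.1 * (r ^ (q + 1)) ^ S.N v.2.2) (e g, (f g true, f g false)) ≤
        2 * (S.Z (r ^ (q + 1)) * S.Z (r ^ (q + 1))) := by
      refine (ENNReal.tsum_comp_le_tsum_of_injective hinj (fun v : Bool × (S.G × S.G) =>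
        (r ^ (q + 1)) ^ S.N v.2.1 * (r ^ (q + 1)) ^ S.N v.2.2)).trans (le_of_eq ?_)
      rw [ENNReal.tsum_prod', tsum_fintype]
      simp only [Finset.sum_const]
      rw [ENNReal.tsum_prod']
      simp only [ENNReal.tsum_mul_left, ENNReal.tsum_mul_right]
      simp [Z]
    have hC : r ^ (4 * (q + 1)) * ∑' g : S.G, (if (q + 1) * M (S.ru g) ≤ W (S.ru g) then 0 else
        (r ^ q) ^ S.N g) ≤ 2 * (S.Z (r ^ (q + 1)) * S.Z (r ^ (q + 1))) := by
      refine le_trans ?_ hsum
      rw [← ENNReal.tsum_mul_left]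
      refine ENNReal.tsum_le_tsum fun g => ?_
      simp only
      split_ifs with h
      · simp
      · rw [← pow_mul, ← pow_mul, ← pow_mul, ← pow_add, ← pow_add]
        refine pow_le_pow_right_of_le_one' hr1 ?_
        rw [not_le] at h
        have h1 := hN g
        have h2 := S.r_W g
        rw [h2] at h
        have h3 : (q + 1) * (S.N (f g true) + S.N (f g false) + M (S.ru g)) ≤
            (q + 1) * (S.N g + 4) := Nat.mul_le_mul_left _ h1
        nlinarith
    have hD : r ^ (4 * (q + 1)) ≠ 0 := pow_ne_zero _ hr0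
    intro htop
    rw [htop, ENNReal.mul_top hD] at hC
    have := ENNReal.mul_ne_top (by norm_num : (2 : ℝ≥0∞) ≠ ∞) (ENNReal.mul_ne_top hZ hZ)
    exact this (top_le_iff.1 hC)
  exact ne_top_of_le_ne_top (ENNReal.add_ne_top.2 ⟨hA, hB⟩) hsplit

/-- **The generating function converges for all `s < 1`.** -/
theorem Z_ne_top (s : ℝ) (hs : s < 1) : S.Z (ENNReal.ofReal s) ≠ ∞ := by
  wlog hs0 : 0 < s generalizing s
  · refine ne_top_of_le_ne_top (this (1 / 2) (by norm_num) (by norm_num)) (S.Z_mono ?_)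
    exact ENNReal.ofReal_le_ofReal (by linarith)
  obtain ⟨q, hq1, hq⟩ := FF_ne_top (Real.sqrt s) (Real.sqrt_pos.2 hs0)
    (by rw [Real.sqrt_lt' one_pos]; simpa using hs)
  rw [Real.sq_sqrt hs0.le] at hq
  set σ := ENNReal.ofReal s with hσ
  have hσ0 : σ ≠ 0 := by
    rw [hσ]
    exact (ENNReal.ofReal_pos.2 hs0).ne'
  have hσ1 : σ < 1 := by
    rw [hσ, ← ENNReal.ofReal_one]
    exact (ENNReal.ofReal_lt_ofReal_iff one_pos).2 hs
  have hσt : σ ≠ ∞ := ENNReal.ofReal_ne_top
  have hq0 : (0 : ℝ) < q := by exact_mod_cast hq1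
  set β : ℝ := (q + 1) / q with hβ
  have hβ1 : 1 < β := by
    rw [hβ, lt_div_iff₀ hq0]
    linarith
  have step : ∀ x : ℝ, 1 ≤ x → S.Z (σ ^ (x * β)) ≠ ∞ → S.Z (σ ^ x) ≠ ∞ := by
    intro x hx h
    have e1 : (σ ^ (x / q)) ^ q = σ ^ x := by
      rw [← ENNReal.rpow_natCast, ← ENNReal.rpow_mul, div_mul_cancel₀ _ hq0.ne']
    have e2 : (σ ^ (x / q)) ^ (q + 1) = σ ^ (x * β) := by
      rw [← ENNReal.rpow_natCast, ← ENNReal.rpow_mul]
      congr 1
      rw [hβ]
      push_cast
      ring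
    rw [← e1]
    rw [← e2] at h
    refine S.Z_rec q _ ?_ ?_ ?_ h
    · exact ENNReal.rpow_le_one hσ1.le (by positivity)
    · intro h0
      rw [ENNReal.rpow_eq_zero_iff] at h0
      rcases h0 with h0 | h0
      · exact hσ0 h0.1
      · exact hσt h0.1
    · rw [e1]
      refine ne_top_of_le_ne_top hq (FF_mono q ?_)
      have := ENNReal.rpow_le_rpow_of_exponent_ge hσ1.le hx
      rwa [ENNReal.rpow_one] at this
  have hdown : ∀ k : ℕ, S.Z (σ ^ (β ^ k)) ≠ ∞ → S.Z (σ ^ (1 : ℝ)) ≠ ∞ := by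
    intro k
    induction k with
    | zero => intro h; simpa using h
    | succ k ih =>
      intro h
      apply ih
      apply step _ (one_le_pow₀ hβ1.le)
      rwa [← pow_succ]
  have hsmall : ∃ k : ℕ, σ ^ (β ^ k) ≤ 1 / 2 := by
    obtain ⟨n, hn⟩ := exists_pow_lt_of_lt_one (show (0 : ℝ) < 1 / 2 by norm_num) hs
    obtain ⟨k, hk⟩ := pow_unbounded_of_one_lt (n : ℝ) hβ1
    refine ⟨k, ?_⟩
    have h1 := ENNReal.rpow_le_rpow_of_exponent_ge hσ1.le hk.le
    refine h1.trans ?_
    rw [ENNReal.rpow_natCast, hσ, ← ENNReal.ofReal_pow hs0.le]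
    have e1 : (1 / 2 : ℝ≥0∞) = ENNReal.ofReal (1 / 2) := by
      rw [ENNReal.ofReal_div_of_pos (by norm_num)]
      simp
    rw [e1]
    exact ENNReal.ofReal_le_ofReal hn.le
  obtain ⟨k, hk⟩ := hsmall
  have := hdown k (ne_top_of_le_ne_top S.Z_half (S.Z_mono hk))
  rwa [ENNReal.rpow_one] at this

/-- balls of the weighted length are finite and have subexponential growth -/
theorem ball_bound (s : ℝ) (hs0 : 0 < s) (hs : s < 1) : ∃ C : ℝ, 0 < C ∧ ∀ (A : Set S.G) (n : ℕ),
    (∀ g ∈ A, S.N g ≤ n) → A.Finite ∧ (A.ncard : ℝ) * s ^ n ≤ C := by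
  have hZ := S.Z_ne_top s hs
  refine ⟨(S.Z (ENNReal.ofReal s)).toReal + 1, by positivity, ?_⟩
  intro A n hA
  have key : ∀ F : Finset S.G, (∀ g ∈ F, S.N g ≤ n) → (F.card : ℝ) * s ^ n ≤
      (S.Z (ENNReal.ofReal s)).toReal := by
    intro F hF
    have h1 : (F.card : ℝ≥0∞) * ENNReal.ofReal s ^ n ≤ S.Z (ENNReal.ofReal s) := by
      calc (F.card : ℝ≥0∞) * ENNReal.ofReal s ^ n = ∑ g ∈ F, ENNReal.ofReal s ^ n := by
            rw [Finset.sum_const, nsmul_eq_mul]
        _ ≤ ∑ g ∈ F, ENNReal.ofReal s ^ S.N g := by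
            refine Finset.sum_le_sum fun g hg => ?_
            refine pow_le_pow_right_of_le_one' ?_ (hF g hg)
            rw [← ENNReal.ofReal_one]
            exact ENNReal.ofReal_le_ofReal hs.le
        _ ≤ S.Z (ENNReal.ofReal s) := ENNReal.sum_le_tsum F
    have h2 := ENNReal.toReal_mono hZ h1
    rwa [ENNReal.toReal_mul, ENNReal.toReal_pow, ENNReal.toReal_ofReal hs0.le,
      ENNReal.toReal_natCast] at h2
  have hfin : A.Finite := by
    by_contra hinf
    obtain ⟨m, hm⟩ := exists_nat_gt ((S.Z (ENNReal.ofReal s)).toReal / s ^ n)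
    obtain ⟨F, hF, hcard⟩ := Set.Infinite.exists_subset_card_eq hinf m
    have h1 := key F (fun g hg => hA g (hF hg))
    rw [hcard] at h1
    rw [div_lt_iff₀ (by positivity)] at hm
    linarith
  refine ⟨hfin, ?_⟩
  have h1 := key hfin.toFinset (fun g hg => hA g (hfin.mem_toFinset.1 hg))
  rw [← Set.ncard_eq_toFinset_card A hfin] at h1
  linarith

/-- the weighted length of a product -/
theorem N_mul (g h : S.G) : S.N (g * h) ≤ S.N g + S.N h + 10 := by
  have word : ∀ g : S.G, ∃ z : List (Option U), (z.map S.lv).prod = g ∧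
      (z.map lw).sum ≤ S.N g + 4 := by
    intro g
    obtain ⟨i, u, j, h1, h2⟩ := S.N_spec g
    have hu : ∀ u : List U, ∃ z : List (Option U), (z.map S.lv).prod = S.P u ∧
        (z.map lw).sum ≤ W u := by
      intro u
      induction u with
      | nil => exact ⟨[], by simp [P], by simp⟩
      | cons y u ih =>
        obtain ⟨z, hz1, hz2⟩ := ih
        refine ⟨some y :: none :: z, ?_, ?_⟩
        · simp only [List.map_cons, List.prod_cons, lv, hz1, P, mul_assoc]
        · have : nu y = w y + 2 := by cases y <;> rfl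
          simp only [List.map_cons, List.sum_cons, lw, W, this] at *
          omega
    have hi : ∀ i : Bool, ∃ z : List (Option U), (z.map S.lv).prod = S.sg i ∧
        (z.map lw).sum ≤ 2 := by
      intro i
      cases i
      · exact ⟨[], by simp [sg], by simp⟩
      · exact ⟨[none], by simp [sg, lv], by simp [lw]⟩
    obtain ⟨z1, hz1, hz1'⟩ := hi i
    obtain ⟨z2, hz2, hz2'⟩ := hu u
    obtain ⟨z3, hz3, hz3'⟩ := hi j
    refine ⟨z1 ++ z2 ++ z3, ?_, ?_⟩
    · rw [List.map_append, List.map_append, List.prod_append, List.prod_append, hz1, hz2, hz3]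
      exact h1
    · rw [List.map_append, List.map_append, List.sum_append, List.sum_append]
      omega
  obtain ⟨z1, hz1, hz1'⟩ := word g
  obtain ⟨z2, hz2, hz2'⟩ := word h
  have := S.N_word (g * h) (z := z1 ++ z2) (by rw [List.map_append, List.prod_append, hz1, hz2]; rfl)
  rw [List.map_append, List.sum_append] at this
  omega

theorem N_one : S.N 1 ≤ 2 := by
  have := S.N_word 1 (z := []) (by simp)
  simpa using this

end SS

end Pool.Agent.Y896.TF
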