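import Pool.Agent.Y896.TF.Abs

/-!
# Superpolynomial growth (helper896)
-/

set_option autoImplicit false

namespace Pool.Agent.Y896.TF

open Equiv

namespace SS

variable {X : Type} (S : SS X)

/-- the permutation with the sections `σ` at `true` and `τ` at `false` -/
def pr (σ τ : Perm X) : Perm X where
  toFun y := S.Φ ((bif (S.Φ.symm y).2 then σ (S.Φ.symm y).1 else τ (S.Φ.symm y).1),
    (S.Φ.symm y).2)
  invFun y := S.Φ ((bif (S.Φ.symm y).2 then σ.symm (S.Φ.symm y).1 else τ.symm (S.Φ.symm y).1),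
    (S.Φ.symm y).2)
  left_inv y := by
    obtain ⟨⟨x, t⟩, rfl⟩ := S.Φ.surjective y
    cases t <;> simp
  right_inv y := by
    obtain ⟨⟨x, t⟩, rfl⟩ := S.Φ.surjective y
    cases t <;> simp

theorem pr_true (σ τ : Perm X) (x : X) : S.pr σ τ (S.Φ (x, true)) = S.Φ (σ x, true) := by
  simp [pr]

theorem pr_false (σ τ : Perm X) (x : X) : S.pr σ τ (S.Φ (x, false)) = S.Φ (τ x, false) := by
  simp [pr]

theorem pr_mul (σ τ σ' τ' : Perm X) : S.pr σ τ * S.pr σ' τ' = S.pr (σ * σ') (τ * τ') := by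
  apply S.ext2
  intro x t
  cases t
  · simp only [Perm.mul_apply, pr_false]
  · simp only [Perm.mul_apply, pr_true]

theorem pr_one : S.pr 1 1 = 1 := by
  apply S.ext2
  intro x t
  cases t
  · simp only [pr_false, Perm.one_apply]
  · simp only [pr_true, Perm.one_apply]

theorem pr_inv (σ τ : Perm X) : (S.pr σ τ)⁻¹ = S.pr σ⁻¹ τ⁻¹ := by
  rw [inv_eq_iff_mul_eq_one, pr_mul, mul_inv_cancel, mul_inv_cancel, pr_one]

theorem pr_pow (σ τ : Perm X) (n : ℕ) : S.pr σ τ ^ n = S.pr (σ ^ n) (τ ^ n) := by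
  induction n with
  | zero => simp [pr_one]
  | succ n ih => rw [pow_succ, pow_succ, pow_succ, ih, pr_mul]

theorem pr_inj {σ τ σ' τ' : Perm X} (h : S.pr σ τ = S.pr σ' τ') : σ = σ' ∧ τ = τ' := by
  constructor
  · ext x
    have := congrArg (fun ρ : Perm X => ρ (S.Φ (x, true))) h
    simp only [pr_true, EmbeddingLike.apply_eq_iff_eq, Prod.mk.injEq, and_true] at this
    exact this
  · ext x
    have := congrArg (fun ρ : Perm X => ρ (S.Φ (x, false))) h
    simp only [pr_false, EmbeddingLike.apply_eq_iff_eq, Prod.mk.injEq, and_true] at this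
    exact this

theorem c_eq : S.c = S.pr S.a S.d := by
  apply S.ext2
  intro x t
  cases t
  · rw [pr_false, S.hc0]
  · rw [pr_true, S.hc1]

theorem d_eq : S.d = S.pr 1 S.c := by
  apply S.ext2
  intro x t
  cases t
  · rw [pr_false, S.hd0]
  · rw [pr_true, S.hd1, Perm.one_apply]

theorem a_conj (σ τ : Perm X) : S.a * S.pr σ τ * S.a = S.pr τ σ := by
  apply S.ext2
  intro x t
  cases t
  · simp only [Perm.mul_apply, S.ha, Bool.not_false, pr_true, pr_false, Bool.not_true]
  · simp only [Perm.mul_apply, S.ha, Bool.not_false, pr_true, pr_false, Bool.not_true]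

/-- the first coordinates of elements of the group -/
theorem exists_pr {g : Perm X} (hg : g ∈ S.G) : ∃ k ∈ S.G, S.pr g k ∈ S.G := by
  unfold G at hg
  induction hg using Subgroup.closure_induction with
  | mem x hx =>
    simp only [Set.mem_insert_iff, Set.mem_singleton_iff] at hx
    rcases hx with rfl | rfl | rfl
    · exact ⟨S.d, S.d_mem, by rw [← c_eq]; exact S.c_mem⟩
    · refine ⟨1, S.G.one_mem, ?_⟩
      rw [← a_conj, ← d_eq]
      exact S.G.mul_mem (S.G.mul_mem S.a_mem S.d_mem) S.a_mem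
    · refine ⟨S.a, S.a_mem, ?_⟩
      rw [← a_conj, ← c_eq]
      exact S.G.mul_mem (S.G.mul_mem S.a_mem S.c_mem) S.a_mem
  | one => exact ⟨1, S.G.one_mem, by rw [pr_one]; exact S.G.one_mem⟩
  | mul x y _ _ hx hy =>
    obtain ⟨k, hk, h⟩ := hx
    obtain ⟨k', hk', h'⟩ := hy
    exact ⟨k * k', S.G.mul_mem hk hk', by rw [← pr_mul]; exact S.G.mul_mem h h'⟩
  | inv x _ hx =>
    obtain ⟨k, hk, h⟩ := hx
    exact ⟨k⁻¹, S.G.inv_mem hk, by rw [← pr_inv]; exact S.G.inv_mem h⟩

/-- the commutator of `a` and `c` -/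
def ee : Perm X := S.a * S.c * S.a * S.c

/-- the normal closure of the commutator of `a` and `c` in the group -/
def MM : Subgroup (Perm X) := Subgroup.closure {y | ∃ g ∈ S.G, y = g * S.ee * g⁻¹}

theorem ee_mem : S.ee ∈ S.MM :=
  Subgroup.subset_closure ⟨1, S.G.one_mem, by simp⟩

theorem ee_mem_G : S.ee ∈ S.G :=
  S.G.mul_mem (S.G.mul_mem (S.G.mul_mem S.a_mem S.c_mem) S.a_mem) S.c_mem

theorem MM_le : S.MM ≤ S.G := by
  unfold MM
  rw [Subgroup.closure_le]
  rintro y ⟨g, hg, rfl⟩
  exact S.G.mul_mem (S.G.mul_mem hg S.ee_mem_G) (S.G.inv_mem hg)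

theorem MM_conj {m g : Perm X} (hm : m ∈ S.MM) (hg : g ∈ S.G) : g * m * g⁻¹ ∈ S.MM := by
  unfold MM at hm
  induction hm using Subgroup.closure_induction with
  | mem x hx =>
    obtain ⟨h, hh, rfl⟩ := hx
    refine Subgroup.subset_closure ⟨g * h, S.G.mul_mem hg hh, ?_⟩
    group
  | one => rw [mul_one, mul_inv_cancel]; exact S.MM.one_mem
  | mul x y _ _ hx hy =>
    have : g * (x * y) * g⁻¹ = (g * x * g⁻¹) * (g * y * g⁻¹) := by group
    rw [this]
    exact S.MM.mul_mem hx hy
  | inv x _ hx =>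
    have : g * x⁻¹ * g⁻¹ = (g * x * g⁻¹)⁻¹ := by group
    rw [this]
    exact S.MM.inv_mem hx

theorem ca (z : Perm X) : S.a * (S.a * z) = z := by rw [← mul_assoc, S.aa, one_mul]
theorem ccz (z : Perm X) : S.c * (S.c * z) = z := by rw [← mul_assoc, S.cc, one_mul]
theorem ddz (z : Perm X) : S.d * (S.d * z) = z := by rw [← mul_assoc, S.dd, one_mul]
theorem dcz (z : Perm X) : S.d * (S.c * z) = S.c * (S.d * z) := by
  rw [← mul_assoc, ← S.cd, mul_assoc]
theorem dc : S.d * S.c = S.c * S.d := S.cd.symm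

theorem ee_eq : S.ee = S.pr (S.d * S.a) (S.a * S.d) := by
  unfold ee
  have h : S.a * S.c * S.a = S.pr S.d S.a := by
    conv_lhs => rw [S.c_eq]
    exact S.a_conj _ _
  rw [h]
  conv_lhs => rw [S.c_eq]
  rw [pr_mul]

theorem pr_one_ee : S.pr 1 S.ee ∈ S.MM := by
  have h : S.pr 1 S.ee = S.ee * (S.d * S.ee⁻¹ * S.d⁻¹) := by
    have hd : ∀ σ τ : Perm X, S.d * S.pr σ τ * S.d⁻¹ = S.pr σ (S.c * τ * S.c⁻¹) := by
      intro σ τ
      conv_lhs => rw [S.d_eq]
      rw [pr_inv, pr_mul, pr_mul, one_mul, inv_one, mul_one]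
    conv_rhs => rw [S.ee_eq]
    rw [pr_inv, hd, pr_mul]
    congr 1
    · group
    · unfold ee
      rw [mul_inv_rev, S.inv_a, S.inv_c, S.inv_d]
      simp only [mul_assoc, S.ca, S.ccz, S.ddz, S.dcz, S.dc]
  rw [h]
  exact S.MM.mul_mem S.ee_mem (S.MM_conj (S.MM.inv_mem S.ee_mem) S.d_mem)

theorem a_conj_mem {m : Perm X} (hm : m ∈ S.MM) : S.a * m * S.a ∈ S.MM := by
  have := S.MM_conj hm S.a_mem
  rwa [S.inv_a] at this

theorem pr_ee_one : S.pr S.ee 1 ∈ S.MM := by
  rw [← a_conj]
  exact S.a_conj_mem S.pr_one_ee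

theorem pr_left {m : Perm X} (hm : m ∈ S.MM) : S.pr m 1 ∈ S.MM := by
  unfold MM at hm
  induction hm using Subgroup.closure_induction with
  | mem x hx =>
    obtain ⟨g, hg, rfl⟩ := hx
    obtain ⟨k, _, hk⟩ := S.exists_pr hg
    have := S.MM_conj S.pr_ee_one hk
    rwa [pr_inv, pr_mul, pr_mul, mul_one, mul_inv_cancel] at this
  | one => rw [pr_one]; exact S.MM.one_mem
  | mul x y _ _ hx hy =>
    have := S.MM.mul_mem hx hy
    rwa [pr_mul, one_mul] at this
  | inv x _ hx =>
    have := S.MM.inv_mem hx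
    rwa [pr_inv, inv_one] at this

theorem pr_right {m : Perm X} (hm : m ∈ S.MM) : S.pr 1 m ∈ S.MM := by
  rw [← a_conj]
  exact S.a_conj_mem (S.pr_left hm)

/-- `b` -/
def bb' : Perm X := S.c * S.d

theorem b_eq : S.bb' = S.pr S.a S.bb' := by
  have h : S.c * S.d = S.pr S.a S.d * S.pr 1 S.c := by rw [← S.c_eq, ← S.d_eq]
  change S.c * S.d = S.pr S.a (S.c * S.d)
  rw [pr_mul, mul_one, S.dc] at h
  exact h

theorem b_mem : S.bb' ∈ S.G := S.G.mul_mem S.c_mem S.d_mem

theorem ab_sq : (S.a * S.bb') ^ 2 = S.pr (S.bb' * S.a) (S.a * S.bb') := by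
  have h : S.a * S.bb' * S.a = S.pr S.bb' S.a := by
    conv_lhs => rw [S.b_eq]
    exact S.a_conj _ _
  rw [pow_two, ← mul_assoc, h]
  conv_lhs => rw [S.b_eq]
  rw [pr_mul, ← S.b_eq]

/-- `a b` has infinite order -/
theorem ab_order [Nonempty X] (n : ℕ) (h : (S.a * S.bb') ^ n = 1) : n = 0 := by
  induction n using Nat.strong_induction_on with
  | _ n ih =>
    by_contra hn
    have hdig : ∀ (m : ℕ) (x : X) (t : Bool), ∃ y, ((S.a * S.bb') ^ m) (S.Φ (x, t)) =
        S.Φ (y, xor (decide (m % 2 = 1)) t) := by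
      intro m
      induction m with
      | zero => intro x t; exact ⟨x, by simp⟩
      | succ m ih' =>
        intro x t
        obtain ⟨y, hy⟩ := ih' x t
        rw [pow_succ', Perm.mul_apply, hy, Perm.mul_apply, S.b_eq]
        have hx : ∀ (y : X) (s : Bool), ∃ z, S.a (S.pr S.a S.bb' (S.Φ (y, s))) =
            S.Φ (z, !s) := by
          intro y s
          cases s
          · exact ⟨_, by rw [pr_false, S.ha]⟩
          · exact ⟨_, by rw [pr_true, S.ha]⟩
        obtain ⟨z, hz⟩ := hx y (xor (decide (m % 2 = 1)) t)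
        refine ⟨z, ?_⟩
        rw [hz]
        congr 2
        rcases Nat.mod_two_eq_zero_or_one m with h0 | h0
        · have : (m + 1) % 2 = 1 := by omega
          simp [h0, this]
        · have : (m + 1) % 2 = 0 := by omega
          simp [h0, this]
    obtain ⟨x0⟩ := (inferInstance : Nonempty X)
    obtain ⟨y, hy⟩ := hdig n x0 true
    rw [h, Perm.one_apply] at hy
    have hy2 := S.Φ.injective hy
    rw [Prod.mk.injEq] at hy2
    have hev : n % 2 = 0 := by
      rcases Nat.mod_two_eq_zero_or_one n with h0 | h0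
      · exact h0
      · exfalso
        have h3 := hy2.2
        simp [h0] at h3
    obtain ⟨k, rfl⟩ : ∃ k, n = 2 * k := ⟨n / 2, by omega⟩
    rw [pow_mul, S.ab_sq, pr_pow, ← S.pr_one] at h
    have h4 := (S.pr_inj h).2
    have := ih k (by omega) h4
    omega

/-- an element of infinite order of the normal closure -/
theorem exists_inf [Nonempty X] : ∃ f ∈ S.MM, ∀ n : ℕ, f ^ n = 1 → n = 0 := by
  have hb : S.a * S.bb' * S.a = S.pr S.bb' S.a := by
    conv_lhs => rw [S.b_eq]
    exact S.a_conj _ _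
  -- `g = (b b^a)^2 = ((ab)^2, (ba)^2)`
  set g : Perm X := (S.bb' * (S.a * S.bb' * S.a)) ^ 2 with hg
  have hgG : g ∈ S.G := S.G.pow_mem (S.G.mul_mem S.b_mem
    (S.G.mul_mem (S.G.mul_mem S.a_mem S.b_mem) S.a_mem)) 2
  have hg' : g = S.pr ((S.a * S.bb') ^ 2) ((S.bb' * S.a) ^ 2) := by
    rw [hg, hb]
    conv_lhs => rw [S.b_eq]
    rw [pr_mul, pr_pow, ← S.b_eq]
  refine ⟨S.ee * (g * S.ee⁻¹ * g⁻¹), S.MM.mul_mem S.ee_mem
    (S.MM_conj (S.MM.inv_mem S.ee_mem) hgG), ?_⟩
  intro n hn
  rw [hg', S.ee_eq, pr_inv, pr_inv, pr_mul, pr_mul, pr_mul, pr_pow, ← S.pr_one] at hn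
  have h1 := (S.pr_inj hn).1
  have hx : S.d * S.a * ((S.a * S.bb') ^ 2 * (S.d * S.a)⁻¹ * ((S.a * S.bb') ^ 2)⁻¹) =
      (S.c * (S.a * S.bb' * S.a)) ^ 2 := by
    unfold bb'
    simp only [pow_two, mul_inv_rev, S.inv_a, S.inv_c, S.inv_d]
    simp only [mul_assoc, S.ca, S.ccz, S.ddz, S.dcz, S.dc]
  have hx2 : S.c * (S.a * S.bb' * S.a) = S.pr (S.a * S.bb') (S.d * S.a) := by
    rw [hb]
    conv_lhs => rw [S.c_eq]
    rw [pr_mul]
  rw [hx, hx2, pr_pow, pr_pow, ← S.pr_one] at h1
  have h2 := (S.pr_inj h1).1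
  rw [← pow_mul] at h2
  have := S.ab_order _ h2
  omega

/-- families of elements with independent powers -/
theorem family [Nonempty X] (k : ℕ) : ∃ g : Fin (2 ^ k) → Perm X, (∀ i, g i ∈ S.MM) ∧
    Function.Injective (fun e : Fin (2 ^ k) → ℕ => (List.ofFn fun i => g i ^ e i).prod) := by
  suffices h : ∀ (k N : ℕ), N = 2 ^ k → ∃ g : Fin N → Perm X, (∀ i, g i ∈ S.MM) ∧
      Function.Injective (fun e : Fin N → ℕ => (List.ofFn fun i => g i ^ e i).prod) from
    h k _ rfl
  intro k
  induction k with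
  | zero =>
    intro N hN
    rw [pow_zero] at hN
    subst hN
    obtain ⟨f, hf, hf1⟩ := S.exists_inf
    refine ⟨fun _ => f, fun _ => hf, ?_⟩
    intro e e' h
    simp only [List.ofFn_succ, List.ofFn_zero, List.prod_cons, List.prod_nil, mul_one] at h
    have h2 : e 0 = e' 0 := by
      rcases le_total (e 0) (e' 0) with hle | hle
      · obtain ⟨m, hm⟩ := Nat.exists_eq_add_of_le hle
        rw [hm, pow_add] at h
        have := hf1 m (by
          have h3 : f ^ e 0 * 1 = f ^ e 0 * f ^ m := by rw [mul_one]; exact h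
          exact (mul_left_cancel h3).symm)
        omega
      · obtain ⟨m, hm⟩ := Nat.exists_eq_add_of_le hle
        rw [hm, pow_add] at h
        have := hf1 m (by
          have h3 : f ^ e' 0 * f ^ m = f ^ e' 0 * 1 := by rw [mul_one]; exact h
          exact mul_left_cancel h3)
        omega
    funext i
    have : i = 0 := Subsingleton.elim _ _
    rw [this, h2]
  | succ k ih =>
    intro N hN
    obtain ⟨g, hg, hinj⟩ := ih _ rfl
    have hN2 : N = 2 ^ k + 2 ^ k := by rw [hN, pow_succ]; ring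
    subst hN2
    refine ⟨Fin.append (fun i => S.pr (g i) 1) (fun i => S.pr 1 (g i)), ?_, ?_⟩
    · intro i
      refine Fin.addCases (fun i => ?_) (fun i => ?_) i
      · rw [Fin.append_left]
        exact S.pr_left (hg i)
      · rw [Fin.append_right]
        exact S.pr_right (hg i)
    · have key : ∀ e : Fin (2 ^ k + 2 ^ k) → ℕ, (List.ofFn fun i =>
          (Fin.append (fun i => S.pr (g i) 1) (fun i => S.pr 1 (g i))) i ^ e i).prod =
          S.pr (List.ofFn fun i => g i ^ e (Fin.castAdd _ i)).prod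
            (List.ofFn fun i => g i ^ e (Fin.natAdd _ i)).prod := by
        intro e
        have hl : ∀ i : Fin (2 ^ k), Fin.append (fun i => S.pr (g i) 1) (fun i => S.pr 1 (g i))
            (Fin.castLE (Nat.le_add_right _ _) i) = S.pr (g i) 1 := fun i => Fin.append_left _ _ i
        rw [List.ofFn_add, List.prod_append]
        simp only [hl, Fin.append_right]
        change (List.ofFn fun i : Fin (2 ^ k) => S.pr (g i) 1 ^ e (Fin.castAdd _ i)).prod * _ = _
        have h1 : ∀ l : List (Perm X), (l.map fun x => S.pr x 1).prod = S.pr l.prod 1 := by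
          intro l
          induction l with
          | nil => simp [pr_one]
          | cons x l ih => rw [List.map_cons, List.prod_cons, ih, pr_mul, List.prod_cons, one_mul]
        have h2 : ∀ l : List (Perm X), (l.map fun x => S.pr 1 x).prod = S.pr 1 l.prod := by
          intro l
          induction l with
          | nil => simp [pr_one]
          | cons x l ih => rw [List.map_cons, List.prod_cons, ih, pr_mul, List.prod_cons, one_mul]
        have e1 : (List.ofFn fun i : Fin (2 ^ k) => S.pr (g i) 1 ^ e (Fin.castAdd _ i)) =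
            (List.ofFn fun i => g i ^ e (Fin.castAdd _ i)).map fun x => S.pr x 1 := by
          rw [List.map_ofFn]
          congr 1
          funext i
          simp [pr_pow]
        have e2 : (List.ofFn fun i : Fin (2 ^ k) => S.pr 1 (g i) ^ e (Fin.natAdd _ i)) =
            (List.ofFn fun i => g i ^ e (Fin.natAdd _ i)).map fun x => S.pr 1 x := by
          rw [List.map_ofFn]
          congr 1
          funext i
          simp [pr_pow]
        rw [e1, e2, h1, h2, pr_mul, mul_one, one_mul]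
      intro e e' h
      simp only [key] at h
      obtain ⟨h1, h2⟩ := S.pr_inj h
      have h3 := hinj h1
      have h4 := hinj h2
      funext i
      refine Fin.addCases (fun i => ?_) (fun i => ?_) i
      · exact congrFun h3 i
      · exact congrFun h4 i

end SS

end Pool.Agent.Y896.TF
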