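import Pool.Agent.Y896.TF.Defs
import Pool.Agent.Y896.TF.Sub
import Pool.Agent.Y896.TF.Sup

/-!
# The group generated by `a`, `c`, `d` has intermediate growth (helper896)
-/

set_option autoImplicit false

namespace Pool.Agent.Y896.TF

open Equiv Filter

theorem ball_mono {G : Type} [Group G] (S : Finset G) {m n : ℕ} (h : m ≤ n) :
    ball S m ⊆ ball S n := by
  rintro g ⟨l, hl, hx, rfl⟩
  exact ⟨l, hl.trans h, hx, rfl⟩

theorem ball_mul {G : Type} [Group G] {S : Finset G} {m n : ℕ} {g h : G} (hg : g ∈ ball S m)
    (hh : h ∈ ball S n) : g * h ∈ ball S (m + n) := by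
  obtain ⟨l, hl, hx, rfl⟩ := hg
  obtain ⟨l', hl', hx', rfl⟩ := hh
  refine ⟨l ++ l', by rw [List.length_append]; omega, ?_, by rw [List.prod_append]⟩
  intro x hxm
  rcases List.mem_append.mp hxm with h | h
  · exact hx x h
  · exact hx' x h

theorem ball_one {G : Type} [Group G] (S : Finset G) : (1 : G) ∈ ball S 0 :=
  ⟨[], le_rfl, by simp, rfl⟩

theorem ball_pow {G : Type} [Group G] {S : Finset G} {m : ℕ} {g : G} (hg : g ∈ ball S m) (e : ℕ) :
    g ^ e ∈ ball S (e * m) := by
  induction e with
  | zero => rw [pow_zero, Nat.zero_mul]; exact ball_one S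
  | succ e ih =>
    rw [pow_succ, Nat.succ_mul]
    exact ball_mul ih hg

theorem mem_ball_of_closure {G : Type} [Group G] (S : Finset G) {x : G}
    (hx : x ∈ Subgroup.closure (S : Set G)) : ∃ m : ℕ, x ∈ ball S m := by
  induction hx using Subgroup.closure_induction with
  | mem x hx =>
    refine ⟨1, [x], by simp, ?_, by simp⟩
    intro y hy
    rw [List.mem_singleton] at hy
    subst hy
    exact Or.inl hx
  | one => exact ⟨0, ball_one S⟩
  | mul x y _ _ hx hy =>
    obtain ⟨m, hm⟩ := hx
    obtain ⟨n, hn⟩ := hy
    exact ⟨m + n, ball_mul hm hn⟩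
  | inv x _ hx =>
    obtain ⟨m, l, hl, hx, rfl⟩ := hx
    refine ⟨m, (l.map fun y => y⁻¹).reverse, by simpa using hl, ?_, ?_⟩
    · intro y hy
      rw [List.mem_reverse, List.mem_map] at hy
      obtain ⟨z, hz, rfl⟩ := hy
      rw [inv_inv]
      exact (hx z hz).symm
    · rw [List.prod_inv_reverse]

/-- invariance under isomorphism -/
theorem IntermediateGrowth.of_equiv {G H : Type} [Group G] [Group H] (e : G ≃* H)
    (h : IntermediateGrowth G) : IntermediateGrowth H := by
  classical
  refine ⟨?_, ?_⟩
  · haveI := h.1
    exact Group.fg_of_surjective (f := e.toMonoidHom) e.surjective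
  · intro S hS
    set S' : Finset G := S.image e.symm with hS'
    have hcl : Subgroup.closure (S' : Set G) = ⊤ := by
      have h1 : (S' : Set G) = e.symm.toMonoidHom '' (S : Set H) := by
        rw [hS', Finset.coe_image]
        rfl
      rw [h1, ← MonoidHom.map_closure, hS, ← MonoidHom.range_eq_map]
      exact MonoidHom.range_eq_top.2 e.symm.surjective
    have hball : ∀ n, (ball S n).ncard = (ball S' n).ncard := by
      intro n
      have h2 : ball S n = e '' ball S' n := by
        ext g
        constructor
        · rintro ⟨l, hl, hx, rfl⟩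
          refine ⟨e.symm l.prod, ⟨l.map e.symm, by rw [List.length_map]; exact hl, ?_, ?_⟩,
            e.apply_symm_apply _⟩
          · intro x hxm
            obtain ⟨y, hy, rfl⟩ := List.mem_map.1 hxm
            rcases hx y hy with h | h
            · exact Or.inl (Finset.mem_image_of_mem _ h)
            · right
              rw [← map_inv]
              exact Finset.mem_image_of_mem _ h
          · rw [map_list_prod]
        · rintro ⟨g, ⟨l, hl, hx, rfl⟩, rfl⟩
          refine ⟨l.map e, by rw [List.length_map]; exact hl, ?_, ?_⟩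
          · intro x hxm
            obtain ⟨y, hy, rfl⟩ := List.mem_map.1 hxm
            rcases hx y hy with h | h
            · obtain ⟨z, hz, rfl⟩ := Finset.mem_image.1 h
              left
              rw [e.apply_symm_apply]
              exact hz
            · obtain ⟨z, hz, hz'⟩ := Finset.mem_image.1 h
              right
              rw [← map_inv, ← hz', e.apply_symm_apply]
              exact hz
          · rw [map_list_prod]
      rw [h2, Set.ncard_image_of_injective _ e.injective]
    simp only [hball]
    exact h.2 S' hcl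

namespace SS

variable {X : Type} (S : SS X)

theorem N_ball (T : Finset S.G) : ∃ K : ℕ, 1 ≤ K ∧ ∀ n : ℕ, ∀ g ∈ ball T n, S.N g ≤ 2 + n * K := by
  classical
  obtain ⟨B, hB⟩ : ∃ B : ℕ, ∀ x ∈ T, S.N x ≤ B ∧ S.N x⁻¹ ≤ B := by
    refine ⟨∑ x ∈ T, (S.N x + S.N x⁻¹), fun x hx => ?_⟩
    have : S.N x + S.N x⁻¹ ≤ ∑ x ∈ T, (S.N x + S.N x⁻¹) :=
      Finset.single_le_sum (f := fun x => S.N x + S.N x⁻¹) (fun _ _ => Nat.zero_le _) hx
    omega
  refine ⟨B + 10, by omega, ?_⟩
  rintro n g ⟨l, hl, hx, rfl⟩
  have key : ∀ l : List S.G, (∀ x ∈ l, x ∈ T ∨ x⁻¹ ∈ T) → S.N l.prod ≤ 2 + l.length * (B + 10) := by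
    intro l
    induction l with
    | nil => intro _; simpa using S.N_one
    | cons x l ih =>
      intro h
      have h1 := ih fun y hy => h y (List.mem_cons_of_mem _ hy)
      have h2 : S.N x ≤ B := by
        rcases h x List.mem_cons_self with h | h
        · exact (hB x h).1
        · have := (hB _ h).2
          rwa [inv_inv] at this
      have h3 := S.N_mul x l.prod
      rw [List.prod_cons, List.length_cons]
      have : (l.length + 1) * (B + 10) = l.length * (B + 10) + (B + 10) := by ring
      omega
  have h1 := key l hx
  have h2 : l.length * (B + 10) ≤ n * (B + 10) := Nat.mul_le_mul_right _ hl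
  omega

theorem inter [Nonempty X] : IntermediateGrowth S.G := by
  classical
  refine ⟨?_, ?_⟩
  · rw [Group.fg_iff_subgroup_fg]
    refine ⟨{S.a, S.c, S.d}, ?_⟩
    unfold G
    congr 1
    simp
  · intro T hT
    obtain ⟨K, hK1, hK⟩ := S.N_ball T
    have hfin : ∀ n, (ball T n).Finite := by
      intro n
      obtain ⟨C, _, hC⟩ := S.ball_bound (1 / 2) (by norm_num) (by norm_num)
      exact (hC (ball T n) (2 + n * K) (hK n)).1
    refine ⟨?_, ?_⟩
    · intro k
      obtain ⟨g, hg, hinj⟩ := S.family k
      have hgG : ∀ i, g i ∈ S.G := fun i => S.MM_le (hg i)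
      have hlist : ∀ i, ∃ m : ℕ, (⟨g i, hgG i⟩ : S.G) ∈ ball T m := by
        intro i
        have : (⟨g i, hgG i⟩ : S.G) ∈ Subgroup.closure (T : Set S.G) := by rw [hT]; trivial
        exact mem_ball_of_closure T this
      choose mi hmi using hlist
      set Lm : ℕ := ∑ i, mi i + 1 with hLm
      have hmi' : ∀ i, (⟨g i, hgG i⟩ : S.G) ∈ ball T Lm := by
        intro i
        refine ball_mono T ?_ (hmi i)
        have := Finset.single_le_sum (f := mi) (fun _ _ => Nat.zero_le _) (Finset.mem_univ i)
        omega
      have hcount : ∀ m : ℕ, m ^ (2 ^ k) ≤ (ball T (2 ^ k * (m * Lm))).ncard := by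
        intro m
        set φ : (Fin (2 ^ k) → Fin m) → S.G := fun e =>
          (List.ofFn fun i => (⟨g i, hgG i⟩ : S.G) ^ (e i : ℕ)).prod with hφ
        have hφ1 : ∀ e, ((φ e : S.G) : Perm X) =
            (List.ofFn fun i => g i ^ (e i : ℕ)).prod := by
          intro e
          rw [hφ]
          simp only
          rw [← Subgroup.coe_subtype, map_list_prod, List.map_ofFn]
          rfl
        have hφinj : Function.Injective φ := by
          intro e e' h
          have h1 := congrArg (fun x : S.G => (x : Perm X)) h
          simp only [hφ1] at h1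
          have h2 := hinj (a₁ := fun i => (e i : ℕ)) (a₂ := fun i => (e' i : ℕ)) h1
          funext i
          exact Fin.ext (congrFun h2 i)
        have hφball : ∀ e, φ e ∈ ball T (2 ^ k * (m * Lm)) := by
          intro e
          have key : ∀ (n : ℕ) (f : Fin n → S.G), (∀ i, f i ∈ ball T (m * Lm)) →
              (List.ofFn f).prod ∈ ball T (n * (m * Lm)) := by
            intro n
            induction n with
            | zero =>
              intro f _
              rw [List.ofFn_zero, List.prod_nil, Nat.zero_mul]
              exact ball_one T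
            | succ n ih =>
              intro f hf
              rw [List.ofFn_succ, List.prod_cons, Nat.succ_mul, Nat.add_comm]
              exact ball_mul (hf 0) (ih _ fun i => hf i.succ)
          apply key
          intro i
          refine ball_mono T ?_ (ball_pow (hmi' i) (e i))
          exact Nat.mul_le_mul_right _ (e i).2.le
        have h3 : (Set.range φ).ncard = m ^ (2 ^ k) := by
          rw [← Set.image_univ, Set.ncard_image_of_injective _ hφinj, Set.ncard_univ,
            Nat.card_eq_fintype_card, Fintype.card_fun, Fintype.card_fin, Fintype.card_fin]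
        rw [← h3]
        refine Set.ncard_le_ncard ?_ (hfin _)
        rintro _ ⟨e, rfl⟩
        exact hφball e
      set A : ℕ := 2 ^ k * Lm with hA
      have hA1 : 1 ≤ A := Nat.mul_pos (by positivity) (by omega)
      filter_upwards [eventually_ge_atTop (A * ((2 * A) ^ k + 1))] with n hn
      set m := n / A with hm
      have hm1 : (2 * A) ^ k + 1 ≤ m := by
        rw [hm, Nat.le_div_iff_mul_le hA1]
        rw [Nat.mul_comm]
        exact hn
      have h4 : A * m ≤ n := Nat.mul_div_le n A
      have h5 : n < A * (m + 1) := by
        rw [hm]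
        exact Nat.lt_mul_div_succ n hA1
      have h6 : n ≤ 2 * A * m := by
        have h61 : A * (m + 1) ≤ A * (2 * m) := Nat.mul_le_mul_left _ (by omega)
        have h62 : A * (2 * m) = 2 * A * m := by ring
        omega
      have h7 : n ^ k ≤ (2 * A) ^ k * m ^ k := by
        rw [← Nat.mul_pow]
        exact Nat.pow_le_pow_left h6 k
      have h8 : (2 * A) ^ k * m ^ k < m * m ^ k :=
        Nat.mul_lt_mul_of_pos_right (by omega) (by
          have : 0 < m := by omega
          positivity)
      have h9 : m * m ^ k ≤ m ^ (2 ^ k) := by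
        rw [← Nat.pow_succ']
        exact Nat.pow_le_pow_right (by omega) (Nat.lt_two_pow_self)
      have h10 := hcount m
      have h11 : (ball T (2 ^ k * (m * Lm))).ncard ≤ (ball T n).ncard := by
        refine Set.ncard_le_ncard (ball_mono T ?_) (hfin n)
        refine le_trans (le_of_eq ?_) h4
        rw [hA]
        ring
      omega
    · intro c hc
      have hK0 : (0 : ℝ) < K := by exact_mod_cast hK1
      set s : ℝ := Real.exp (-(c / (2 * K))) with hs
      have hs1 : s < 1 := by
        rw [hs, Real.exp_lt_one_iff]
        have : 0 < c / (2 * K) := by positivity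
        linarith
      obtain ⟨C, hC0, hC⟩ := S.ball_bound s (Real.exp_pos _) hs1
      have hev : ∀ᶠ n : ℕ in atTop, C * Real.exp (c / K) < Real.exp (c / 2 * n) := by
        have h1 : Tendsto (fun n : ℕ => Real.exp (c / 2 * n)) atTop atTop := by
          refine Real.tendsto_exp_atTop.comp ?_
          exact tendsto_natCast_atTop_atTop.const_mul_atTop (by positivity)
        exact h1.eventually_gt_atTop _
      filter_upwards [hev] with n hn
      have h1 := (hC (ball T n) (2 + n * K) (hK n)).2
      have h2 : s ^ (2 + n * K) = Real.exp (-(c / K) - c / 2 * n) := by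
        rw [hs, ← Real.exp_nat_mul]
        congr 1
        push_cast
        field_simp
        ring
      rw [h2] at h1
      have h3 : ((ball T n).ncard : ℝ) ≤ C * Real.exp (c / K + c / 2 * n) := by
        have h4 : ((ball T n).ncard : ℝ) = ((ball T n).ncard : ℝ) *
            Real.exp (-(c / K) - c / 2 * n) * Real.exp (c / K + c / 2 * n) := by
          rw [mul_assoc, ← Real.exp_add]
          have : -(c / K) - c / 2 * n + (c / K + c / 2 * n) = 0 := by ring
          rw [this, Real.exp_zero, mul_one]
        rw [h4]
        exact mul_le_mul_of_nonneg_right h1 (Real.exp_pos _).le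
      calc ((ball T n).ncard : ℝ) ≤ C * Real.exp (c / K + c / 2 * n) := h3
        _ = (C * Real.exp (c / K)) * Real.exp (c / 2 * n) := by rw [Real.exp_add]; ring
        _ < Real.exp (c / 2 * n) * Real.exp (c / 2 * n) :=
            mul_lt_mul_of_pos_right hn (Real.exp_pos _)
        _ = Real.exp (c * n) := by rw [← Real.exp_add]; congr 1; ring

end SS

end Pool.Agent.Y896.TF
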