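import Pool.Agent.Y896.TF.Seq
import Pool.Agent.Y896.TF.Grow

/-!
# The Grigorchuk-Erschler group in the topological full group of the Morse subshift (helper896)
-/

set_option autoImplicit false

namespace Pool.Agent.Y896.TF

open Equiv

/-- the partner in the block -/
def na (x : Morse) : ℤ := if par x then -1 else 1

/-- the partner outside of the block -/
def nb (x : Morse) : ℤ := if par x then 1 else -1

/-- the difference of the letters of the pair outside of the blocks -/
def yv (x : Morse) : Bool := if par x then xor (x.1 0) (x.1 1) else xor (x.1 (-1)) (x.1 0)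

def nc (x : Morse) : ℤ := if yv x then 0 else nb x
def nd (x : Morse) : ℤ := if yv x then nb x else 0

def fa (x : Morse) : Morse := sh (na x) x
def fb (x : Morse) : Morse := sh (nb x) x
def fc (x : Morse) : Morse := sh (nc x) x
def fd (x : Morse) : Morse := sh (nd x) x

theorem fc_eq (x : Morse) : fc x = if yv x then x else fb x := by
  unfold fc nc
  cases yv x
  · rfl
  · simp [sh_zero]

theorem fd_eq (x : Morse) : fd x = if yv x then fb x else x := by
  unfold fd nd
  cases yv x
  · simp [sh_zero]
  · rfl

theorem par_fa (x : Morse) : par (fa x) = !par x := by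
  unfold fa
  rw [par_sh]
  unfold na
  cases par x <;> rfl

theorem par_fb (x : Morse) : par (fb x) = !par x := by
  unfold fb
  rw [par_sh]
  unfold nb
  cases par x <;> rfl

theorem fa_fa (x : Morse) : fa (fa x) = x := by
  have h : na (fa x) = - na x := by
    unfold na
    rw [par_fa]
    cases par x <;> rfl
  change sh (na (fa x)) (sh (na x) x) = x
  rw [h, sh_sh, neg_add_cancel, sh_zero]

theorem nb_fb (x : Morse) : nb (fb x) = - nb x := by
  unfold nb
  rw [par_fb]
  cases par x <;> rfl

theorem fb_fb (x : Morse) : fb (fb x) = x := by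
  change sh (nb (fb x)) (sh (nb x) x) = x
  rw [nb_fb, sh_sh, neg_add_cancel, sh_zero]

theorem yv_fb (x : Morse) : yv (fb x) = yv x := by
  unfold yv
  rw [par_fb]
  cases h : par x
  · have h1 : (fb x).1 0 = x.1 (-1) := by
      change x.1 (0 + nb x) = _
      unfold nb
      rw [h]
      rfl
    have h2 : (fb x).1 1 = x.1 0 := by
      change x.1 (1 + nb x) = _
      unfold nb
      rw [h]
      rfl
    rw [h1, h2]
    rfl
  · have h1 : (fb x).1 0 = x.1 1 := by
      change x.1 (0 + nb x) = _
      unfold nb
      rw [h]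
      rfl
    have h2 : (fb x).1 (-1) = x.1 0 := by
      change x.1 (-1 + nb x) = _
      unfold nb
      rw [h]
      rfl
    rw [h1, h2]
    rfl

theorem yv_fc (x : Morse) : yv (fc x) = yv x := by
  rw [fc_eq]
  split_ifs
  · rfl
  · exact yv_fb x

theorem yv_fd (x : Morse) : yv (fd x) = yv x := by
  rw [fd_eq]
  split_ifs
  · exact yv_fb x
  · rfl

theorem fc_fc (x : Morse) : fc (fc x) = x := by
  rw [fc_eq (fc x), yv_fc, fc_eq]
  cases yv x
  · exact fb_fb x
  · rfl

theorem fd_fd (x : Morse) : fd (fd x) = x := by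
  rw [fd_eq (fd x), yv_fd, fd_eq]
  cases yv x
  · rfl
  · exact fb_fb x

theorem fc_fd (x : Morse) : fc (fd x) = fd (fc x) := by
  rw [fc_eq (fd x), yv_fd, fd_eq (fc x), yv_fc, fd_eq, fc_eq]
  cases yv x <;> rfl

/-- the identification of the subshift with its product with the digits -/
def Phi : Morse × Bool ≃ Morse where
  toFun p := psi p.1 (xor p.2 (par p.1))
  invFun x := (des x, xor (par x) (par (des x)))
  left_inv := by
    rintro ⟨x, t⟩
    simp only
    rw [des_psi, par_psi]
    cases t <;> cases par x <;> rfl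
  right_inv := by
    intro x
    simp only
    have e : xor (xor (par x) (par (des x))) (par (des x)) = par x := by
      cases par x <;> cases par (des x) <;> rfl
    rw [e]
    exact psi_des x

theorem fa_psi (x : Morse) (e : Bool) : fa (psi x e) = psi x (!e) := by
  unfold fa na
  rw [par_psi]
  cases e
  · rfl
  · change sh (-1) (sh 1 (mus x)) = mus x
    rw [sh_sh]
    exact sh_zero _

theorem fb_psi_false (x : Morse) : fb (psi x false) = psi (sh (-1) x) true := by
  unfold fb nb
  rw [par_psi]
  change sh (-1) (mus x) = sh 1 (mus (sh (-1) x))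
  rw [sh_mus, sh_sh]
  rfl

theorem fb_psi_true (x : Morse) : fb (psi x true) = psi (sh 1 x) false := by
  unfold fb nb
  rw [par_psi]
  change sh 1 (sh 1 (mus x)) = mus (sh 1 x)
  rw [sh_mus, sh_sh]
  rfl

theorem yv_psi_false (x : Morse) : yv (psi x false) = !xor (x.1 (-1)) (x.1 0) := by
  unfold yv
  rw [par_psi]
  change xor ((mus x).1 (-1)) ((mus x).1 0) = _
  have h1 := mus_even x 0
  have h2 := mus_odd x (-1)
  norm_num at h1 h2
  rw [h1, h2]
  cases x.1 (-1) <;> cases x.1 0 <;> rfl

theorem yv_psi_true (x : Morse) : yv (psi x true) = !xor (x.1 0) (x.1 1) := by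
  unfold yv
  rw [par_psi]
  change xor ((mus x).1 (0 + 1)) ((mus x).1 (1 + 1)) = _
  have h1 := mus_even x 1
  have h2 := mus_odd x 0
  norm_num at h1 h2 ⊢
  rw [h1, h2]
  cases x.1 0 <;> cases x.1 1 <;> rfl

/-- the pair outside of the blocks over a point with digit `false` -/
theorem yv_Phi_false (x : Morse) : yv (Phi (x, false)) = !yv x := by
  change yv (psi x (xor false (par x))) = _
  cases h : par x
  · have e : xor false false = false := rfl
    rw [e, yv_psi_false]
    unfold yv
    rw [h]
    rfl
  · have e : xor false true = true := rfl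
    rw [e, yv_psi_true]
    unfold yv
    rw [h]
    rfl

theorem yv_Phi_true (x : Morse) : yv (Phi (x, true)) = false := by
  change yv (psi x (xor true (par x))) = _
  cases h : par x
  · have e : xor true false = true := rfl
    have h1 := block_false h 0
    norm_num at h1
    rw [e, yv_psi_true, h1]
    cases x.1 0 <;> rfl
  · have e : xor true true = false := rfl
    have h1 := block_true h 0
    norm_num at h1
    rw [e, yv_psi_false, h1]
    cases x.1 (-1) <;> rfl

theorem fa_Phi (x : Morse) (t : Bool) : fa (Phi (x, t)) = Phi (x, !t) := by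
  change fa (psi x (xor t (par x))) = psi x (xor (!t) (par x))
  rw [fa_psi]
  cases t <;> cases par x <;> rfl

theorem fb_Phi_false (x : Morse) : fb (Phi (x, false)) = Phi (fb x, false) := by
  change fb (psi x (xor false (par x))) = psi (fb x) (xor false (par (fb x)))
  rw [par_fb]
  cases h : par x
  · change fb (psi x false) = psi (fb x) true
    rw [fb_psi_false]
    unfold fb nb
    rw [h]
    rfl
  · change fb (psi x true) = psi (fb x) false
    rw [fb_psi_true]
    unfold fb nb
    rw [h]
    rfl

theorem fb_Phi_true (x : Morse) : fb (Phi (x, true)) = Phi (fa x, true) := by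
  change fb (psi x (xor true (par x))) = psi (fa x) (xor true (par (fa x)))
  rw [par_fa]
  cases h : par x
  · change fb (psi x true) = psi (fa x) false
    rw [fb_psi_true]
    unfold fa na
    rw [h]
    rfl
  · change fb (psi x false) = psi (fa x) true
    rw [fb_psi_false]
    unfold fa na
    rw [h]
    rfl

def pa : Perm Morse := Function.Involutive.toPerm fa fa_fa
def pc : Perm Morse := Function.Involutive.toPerm fc fc_fc
def pd : Perm Morse := Function.Involutive.toPerm fd fd_fd

/-- the self-similar structure on the Morse subshift -/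
def SM : SS Morse where
  Φ := Phi
  a := pa
  c := pc
  d := pd
  ha := fa_Phi
  hc1 x := by
    change fc (Phi (x, true)) = Phi (fa x, true)
    rw [fc_eq, yv_Phi_true]
    exact fb_Phi_true x
  hc0 x := by
    change fc (Phi (x, false)) = Phi (fd x, false)
    rw [fc_eq, yv_Phi_false, fd_eq]
    cases yv x
    · rfl
    · exact fb_Phi_false x
  hd1 x := by
    change fd (Phi (x, true)) = Phi (x, true)
    rw [fd_eq, yv_Phi_true]
    rfl
  hd0 x := by
    change fd (Phi (x, false)) = Phi (fc x, false)
    rw [fd_eq, yv_Phi_false, fc_eq]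
    cases yv x
    · exact fb_Phi_false x
    · rfl
  cc := by
    ext1 x
    exact fc_fc x
  dd := by
    ext1 x
    exact fd_fd x
  cd := by
    ext1 x
    exact fc_fd x

/-! ### Continuity -/

/-- five coordinates -/
def vec5 (x : Morse) : Bool × Bool × Bool × Bool × Bool :=
  (x.1 (-1), x.1 0, x.1 1, x.1 2, x.1 3)

theorem continuous_coord (i : ℤ) : Continuous fun x : Morse => x.1 i :=
  (continuous_apply i).comp continuous_subtype_val

theorem continuous_vec5 : Continuous vec5 :=
  (continuous_coord _).prodMk ((continuous_coord _).prodMk ((continuous_coord _).prodMk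
    ((continuous_coord _).prodMk (continuous_coord _))))

theorem continuous_of_vec5 {n : Morse → ℤ} (F : Bool × Bool × Bool × Bool × Bool → ℤ)
    (h : ∀ x, n x = F (vec5 x)) : Continuous n := by
  have : n = F ∘ vec5 := funext h
  rw [this]
  exact continuous_of_discreteTopology.comp continuous_vec5

theorem continuous_na : Continuous na :=
  continuous_of_vec5 (fun v => if (v.2.1 == v.2.2.1) || (v.2.2.2.1 == v.2.2.2.2) then -1 else 1)
    fun _ => rfl

theorem continuous_nc : Continuous nc :=
  continuous_of_vec5 (fun v => if (if (v.2.1 == v.2.2.1) || (v.2.2.2.1 == v.2.2.2.2) then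
    xor v.2.1 v.2.2.1 else xor v.1 v.2.1) then 0 else
    if (v.2.1 == v.2.2.1) || (v.2.2.2.1 == v.2.2.2.2) then 1 else -1) fun _ => rfl

theorem continuous_nd : Continuous nd :=
  continuous_of_vec5 (fun v => if (if (v.2.1 == v.2.2.1) || (v.2.2.2.1 == v.2.2.2.2) then
    xor v.2.1 v.2.2.1 else xor v.1 v.2.1) then
    (if (v.2.1 == v.2.2.1) || (v.2.2.2.1 == v.2.2.2.2) then 1 else -1) else 0) fun _ => rfl

theorem continuous_sh_of {n : Morse → ℤ} (hn : Continuous n) : Continuous fun x => sh (n x) x := by
  have h : Continuous fun p : ℤ × Morse => sh p.1 p.2 :=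
    continuous_prod_of_discrete_left.2 fun k => continuous_sh k
  exact h.comp (hn.prodMk continuous_id)

theorem T_pow (n : ℕ) (x : Morse) : (T ^ n) x = sh n x := by
  induction n with
  | zero =>
    rw [pow_zero]
    exact (sh_zero x).symm
  | succ n ih =>
    rw [pow_succ']
    change T ((T ^ n) x) = _
    rw [ih]
    change sh 1 (sh n x) = _
    rw [sh_sh]
    congr 1
    push_cast
    ring

theorem T_zpow (n : ℤ) (x : Morse) : (T ^ n) x = sh n x := by
  obtain ⟨m, rfl | rfl⟩ := n.eq_nat_or_neg
  · rw [zpow_natCast]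
    exact T_pow m x
  · rw [zpow_neg, zpow_natCast]
    change (T ^ m).toEquiv.symm x = _
    rw [Equiv.symm_apply_eq]
    change x = (T ^ m) (sh (-m) x)
    rw [T_pow, sh_sh, add_neg_cancel, sh_zero]

/-- an element of the full group -/
def mk (f : Morse → Morse) (n : Morse → ℤ) (hf : ∀ x, f (f x) = x) (hn : Continuous n)
    (h : ∀ x, f x = sh (n x) x) : fullGroup T :=
  ⟨{ toEquiv := Function.Involutive.toPerm f hf
     continuous_toFun := by
       have : f = fun x => sh (n x) x := funext h
       change Continuous f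
       rw [this]
       exact continuous_sh_of hn
     continuous_invFun := by
       have : f = fun x => sh (n x) x := funext h
       change Continuous f
       rw [this]
       exact continuous_sh_of hn }, n, hn, fun x => by rw [T_zpow]; exact h x⟩

/-- the underlying permutations -/
def rho : fullGroup T →* Perm Morse where
  toFun g := g.1.toEquiv
  map_one' := rfl
  map_mul' _ _ := rfl

theorem rho_inj : Function.Injective rho := by
  intro g h hgh
  apply Subtype.ext
  ext x : 1
  exact congrArg (fun σ : Perm Morse => σ x) hgh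

theorem tm_add (m : ℕ) : ∀ a k : ℕ, k < 2 ^ m → tm (a * 2 ^ m + k) = xor (tm a) (tm k) := by
  induction m with
  | zero =>
    intro a k hk
    have : k = 0 := by simpa using hk
    subst this
    simp [tm]
  | succ m ih =>
    intro a k hk
    have hk' : k < 2 * 2 ^ m := by rw [pow_succ] at hk; omega
    have e0 : a * 2 ^ (m + 1) = 2 * (a * 2 ^ m) := by rw [pow_succ]; ring
    rcases Nat.even_or_odd' k with ⟨k', rfl | rfl⟩
    · have e : a * 2 ^ (m + 1) + 2 * k' = 2 * (a * 2 ^ m + k') := by rw [e0]; ring
      rw [e, tm_even, ih a k' (by omega), tm_even]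
    · have e : a * 2 ^ (m + 1) + (2 * k' + 1) = 2 * (a * 2 ^ m + k') + 1 := by rw [e0]; ring
      rw [e, tm_odd, ih a k' (by omega), tm_odd]
      cases tm a <;> cases tm k' <;> rfl

theorem tm_compl (m : ℕ) : ∀ i : ℕ, i < 2 ^ m →
    tm (2 ^ m - 1 - i) = xor (decide (m % 2 = 1)) (tm i) := by
  induction m with
  | zero =>
    intro i hi
    have : i = 0 := by simpa using hi
    subst this
    simp [tm]
  | succ m ih =>
    intro i hi
    have hi' : i < 2 * 2 ^ m := by rw [pow_succ] at hi; omega
    have hodd : decide ((m + 1) % 2 = 1) = !decide (m % 2 = 1) := by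
      rcases Nat.mod_two_eq_zero_or_one m with h | h
      · have h2 : (m + 1) % 2 = 1 := by omega
        simp [h, h2]
      · have h2 : (m + 1) % 2 = 0 := by omega
        simp [h, h2]
    rcases Nat.even_or_odd' i with ⟨k, rfl | rfl⟩
    · have e : 2 ^ (m + 1) - 1 - 2 * k = 2 * (2 ^ m - 1 - k) + 1 := by rw [pow_succ]; omega
      rw [e, tm_odd, ih k (by omega), tm_even, hodd]
      cases decide (m % 2 = 1) <;> cases tm k <;> rfl
    · have e : 2 ^ (m + 1) - 1 - (2 * k + 1) = 2 * (2 ^ m - 1 - k) := by rw [pow_succ]; omega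
      rw [e, tm_even, ih k (by omega), tm_odd, hodd]
      cases decide (m % 2 = 1) <;> cases tm k <;> rfl

instance : Nonempty Morse := by
  refine ⟨⟨fun i : ℤ => if 0 ≤ i then tm i.toNat else tm (-1 - i).toNat, ?_⟩⟩
  rw [mem_iff]
  intro i l
  obtain ⟨n, hn⟩ : ∃ n : ℕ, i.natAbs + l < 2 ^ (2 * n) :=
    ⟨i.natAbs + l, lt_of_lt_of_le Nat.lt_two_pow_self (Nat.pow_le_pow_right (by norm_num)
      (by omega))⟩
  have t5 : tm 5 = false := by simp [tm]
  have t6 : tm 6 = false := by simp [tm]
  refine ⟨false, (6 * 2 ^ (2 * n) + i).toNat, fun j hj => ?_⟩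
  set N : ℕ := 2 ^ (2 * n) with hN
  have hp : ((6 * (N : ℤ) + i).toNat : ℤ) = 6 * N + i := Int.toNat_of_nonneg (by omega)
  have hcast : (6 * 2 ^ (2 * n) + i : ℤ) = 6 * (N : ℤ) + i := by rw [hN]; push_cast; ring
  rw [hcast, Bool.false_xor]
  by_cases h0 : 0 ≤ i + (j : ℤ)
  · rw [if_pos h0]
    obtain ⟨k, hk⟩ := Int.eq_ofNat_of_zero_le h0
    have e : (6 * (N : ℤ) + i).toNat + j = 6 * N + k := by omega
    rw [e, hk, Int.toNat_natCast, hN, tm_add (2 * n) 6 k (by omega), t6, Bool.false_xor]
  · rw [if_neg h0]
    obtain ⟨k, hk⟩ := Int.eq_ofNat_of_zero_le (show 0 ≤ -1 - (i + (j : ℤ)) by omega)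
    have hk2 : k < N := by omega
    have e : (6 * (N : ℤ) + i).toNat + j = 5 * N + (N - 1 - k) := by omega
    rw [e, hk, Int.toNat_natCast, hN, tm_add (2 * n) 5 _ (by omega), t5, Bool.false_xor,
      tm_compl (2 * n) k (by omega)]
    have h2 : 2 * n % 2 = 0 := by omega
    rw [h2]
    simp

theorem main : ∃ H : Subgroup (fullGroup T), IntermediateGrowth H := by
  classical
  set A := mk fa na fa_fa continuous_na fun _ => rfl
  set C := mk fc nc fc_fc continuous_nc fun _ => rfl
  set D := mk fd nd fd_fd continuous_nd fun _ => rfl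
  refine ⟨Subgroup.closure {A, C, D}, ?_⟩
  have hmap : (Subgroup.closure {A, C, D}).map rho = SM.G := by
    rw [MonoidHom.map_closure]
    unfold SS.G
    congr 1
    simp only [Set.image_insert_eq, Set.image_singleton]
    rfl
  have e1 : Subgroup.closure {A, C, D} ≃* (Subgroup.closure {A, C, D}).map rho :=
    Subgroup.equivMapOfInjective _ rho rho_inj
  have e2 : (Subgroup.closure {A, C, D}).map rho ≃* SM.G := MulEquiv.subgroupCongr hmap
  exact SM.inter.of_equiv (e1.trans e2).symm

end Pool.Agent.Y896.TF
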