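import Pool.Agent.Y896.TF.Defs

/-!
# The Thue-Morse sequence (helper896)
-/

set_option autoImplicit false

namespace Pool.Agent.Y896.TF

/-- the Thue-Morse sequence -/
def tm : ℕ → Bool
  | 0 => false
  | n + 1 => xor (decide ((n + 1) % 2 = 1)) (tm ((n + 1) / 2))
decreasing_by omega

theorem tm_rec (n : ℕ) : tm n = xor (decide (n % 2 = 1)) (tm (n / 2)) := by
  cases n with
  | zero => simp [tm]
  | succ n => rw [tm]

theorem tm_even (n : ℕ) : tm (2 * n) = tm n := by
  rw [tm_rec]
  have h1 : 2 * n % 2 = 0 := by omega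
  have h2 : 2 * n / 2 = n := by omega
  rw [h1, h2]
  simp

theorem tm_odd (n : ℕ) : tm (2 * n + 1) = !tm n := by
  rw [tm_rec]
  have h1 : (2 * n + 1) % 2 = 1 := by omega
  have h2 : (2 * n + 1) / 2 = n := by omega
  rw [h1, h2]
  simp

theorem sub_map (f g : ℕ → Bool) (h0 : ∀ i, g (2 * i) = f i) (h1 : ∀ i, g (2 * i + 1) = !f i)
    (m : ℕ) : sub ((List.range m).map f) = (List.range (2 * m)).map g := by
  induction m with
  | zero => simp [sub]
  | succ m ih =>
    have e : 2 * (m + 1) = 2 * m + 1 + 1 := by ring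
    rw [List.range_succ, List.map_append, e, List.range_succ, List.range_succ, List.map_append,
      List.map_append, ← ih]
    unfold sub
    rw [List.flatMap_append]
    simp only [List.map_cons, List.map_nil, List.flatMap_cons, List.flatMap_nil, List.append_nil,
      h0, h1]
    rw [List.append_assoc]
    congr 1
    cases f m <;> rfl

theorem sub_iter (n : ℕ) (a : Bool) :
    sub^[n] [a] = (List.range (2 ^ n)).map fun i => xor a (tm i) := by
  induction n with
  | zero => simp [tm]
  | succ n ih =>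
    rw [Function.iterate_succ_apply', ih, sub_map _ (fun i => xor a (tm i)), pow_succ, mul_comm]
    · intro i
      rw [tm_even]
    · intro i
      rw [tm_odd]
      cases a <;> cases tm i <;> rfl

/-- membership in the Morse subshift in terms of the Thue-Morse sequence -/
theorem mem_iff (x : ℤ → Bool) : x ∈ Morse ↔ ∀ (i : ℤ) (l : ℕ), ∃ (a : Bool) (p : ℕ), ∀ j : ℕ,
    j < l → x (i + j) = xor a (tm (p + j)) := by
  constructor
  · intro hx i l
    obtain ⟨n, a, _, s, t, hst⟩ := hx i l
    refine ⟨a, s.length, fun j hj => ?_⟩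
    rw [sub_iter] at hst
    have hlen : (s ++ (List.ofFn fun j : Fin l => x (i + j)) ++ t).length = 2 ^ n := by
      rw [hst]
      simp
    have hlen2 : s.length + l + t.length = 2 ^ n := by
      rw [← hlen]
      simp
      omega
    have h1 : (s ++ (List.ofFn fun j : Fin l => x (i + j)) ++ t)[s.length + j]? =
        ((List.range (2 ^ n)).map fun i => xor a (tm i))[s.length + j]? := by rw [hst]
    rw [List.append_assoc, List.getElem?_append_right (by omega), Nat.add_sub_cancel_left,
      List.getElem?_append_left (by simpa using hj), List.getElem?_map,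
      List.getElem?_range (by omega)] at h1
    rw [List.getElem?_ofFn, dif_pos hj] at h1
    simpa using h1
  · intro h i l
    obtain ⟨a, p, hp⟩ := h i l
    refine ⟨p + l + 1, a, by omega, ?_⟩
    have hlt : p + l + 1 < 2 ^ (p + l + 1) := Nat.lt_two_pow_self
    have e : (List.ofFn fun j : Fin l => x (i + j)) = ((sub^[p + l + 1] [a]).drop p).take l := by
      rw [sub_iter]
      apply List.ext_getElem
      · simp
        omega
      · intro j h1 h2
        have hj : j < l := by simpa using h1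
        simp [hp j hj]
    rw [e]
    exact (List.take_prefix _ _).isInfix.trans (List.drop_suffix _ _).isInfix

theorem tm_noalt (p : ℕ) : ∃ j : ℕ, j < 4 ∧ tm (p + j) = tm (p + j + 1) := by
  by_contra hcon
  push Not at hcon
  have key : ∀ q : ℕ, tm q = tm (q + 1) → tm (q + 1) = tm (q + 2) → False := by
    intro q h1 h2
    rcases Nat.even_or_odd' q with ⟨r, rfl | rfl⟩
    · rw [tm_even, tm_odd] at h1
      cases h : tm r <;> simp [h] at h1
    · have e1 : 2 * r + 1 + 1 = 2 * (r + 1) := by ring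
      have e2 : 2 * r + 1 + 2 = 2 * (r + 1) + 1 := by ring
      rw [e1, e2, tm_even, tm_odd] at h2
      cases h : tm (r + 1) <;> simp [h] at h2
  have step : ∀ q : ℕ, tm (2 * q + 1) ≠ tm (2 * q + 1 + 1) → tm q = tm (q + 1) := by
    intro q h
    have e1 : 2 * q + 1 + 1 = 2 * (q + 1) := by ring
    rw [e1, tm_odd, tm_even] at h
    cases h1 : tm q <;> cases h2 : tm (q + 1) <;> simp [h1, h2] at h ⊢
  rcases Nat.even_or_odd' p with ⟨r, rfl | rfl⟩
  · refine key r (step r (hcon 1 (by norm_num))) (step (r + 1) ?_)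
    have := hcon 3 (by norm_num)
    have e : 2 * r + 3 = 2 * (r + 1) + 1 := by ring
    rwa [e] at this
  · refine key r (step r (hcon 0 (by norm_num))) (step (r + 1) ?_)
    have := hcon 2 (by norm_num)
    have e : 2 * r + 1 + 2 = 2 * (r + 1) + 1 := by ring
    rwa [e] at this

theorem tm_eq_odd {p : ℕ} (h : tm p = tm (p + 1)) : p % 2 = 1 := by
  by_contra hp
  obtain ⟨q, rfl⟩ : ∃ q, p = 2 * q := ⟨p / 2, by omega⟩
  rw [tm_even, tm_odd] at h
  cases h1 : tm q <;> simp [h1] at h

/-- every window has a pair of equal neighbours -/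
theorem exists_eq (x : Morse) (i : ℤ) : ∃ j : ℕ, j < 4 ∧ x.1 (i + j) = x.1 (i + j + 1) := by
  obtain ⟨a, p, hp⟩ := (mem_iff x.1).1 x.2 i 5
  obtain ⟨j, hj, h⟩ := tm_noalt p
  refine ⟨j, hj, ?_⟩
  have h1 := hp j (by omega)
  have h2 := hp (j + 1) (by omega)
  rw [← Nat.add_assoc, ← h] at h2
  rw [h1, ← h2]
  congr 1
  push_cast
  ring

/-- pairs of equal neighbours have the same parity -/
theorem eq_parity (x : Morse) {i i' : ℤ} (h : x.1 i = x.1 (i + 1)) (h' : x.1 i' = x.1 (i' + 1)) :
    i % 2 = i' % 2 := by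
  wlog hle : i ≤ i' generalizing i i'
  · exact (this h' h (by omega)).symm
  obtain ⟨m, hm⟩ := Int.eq_ofNat_of_zero_le (sub_nonneg.2 hle)
  have hi' : i' = i + m := by omega
  subst hi'
  obtain ⟨a, p, hp⟩ := (mem_iff x.1).1 x.2 i (m + 2)
  have e0 := hp 0 (by omega)
  have e1 := hp 1 (by omega)
  have e2 := hp m (by omega)
  have e3 := hp (m + 1) (by omega)
  simp only [Nat.cast_zero, add_zero, Nat.cast_one] at e0 e1
  have h1 : tm p = tm (p + 1) := by
    rw [← h, e0] at e1
    cases a <;> simpa using e1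
  have h2 : tm (p + m) = tm (p + m + 1) := by
    have e : i + ((m + 1 : ℕ) : ℤ) = i + m + 1 := by push_cast; ring
    rw [e, ← h', e2] at e3
    rw [← Nat.add_assoc] at e3
    cases a <;> simpa using e3
  have h3 := tm_eq_odd h1
  have h4 := tm_eq_odd h2
  omega

/-- the parity of the desubstitution -/
def par (x : Morse) : Bool := (x.1 0 == x.1 1) || (x.1 2 == x.1 3)

theorem par_iff (x : Morse) {i : ℤ} (h : x.1 i = x.1 (i + 1)) : par x = decide (i % 2 = 0) := by
  by_cases hp : par x = true
  · rw [hp]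
    have h2 : i % 2 = 0 := by
      unfold par at hp
      rw [Bool.or_eq_true, beq_iff_eq, beq_iff_eq] at hp
      rcases hp with hp | hp
      · exact (eq_parity x h (i' := 0) (by simpa using hp)).trans (by norm_num)
      · exact (eq_parity x h (i' := 2) (by simpa using hp)).trans (by norm_num)
    simp [h2]
  · have hpf : par x = false := by simpa using hp
    rw [hpf]
    unfold par at hpf
    rw [Bool.or_eq_false_iff, beq_eq_false_iff_ne, beq_eq_false_iff_ne] at hpf
    obtain ⟨j, hj, hj2⟩ := exists_eq x 0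
    have h3 : i % 2 = (0 + (j : ℤ)) % 2 := eq_parity x h hj2
    have h4 : j ≠ 0 := by
      rintro rfl
      apply hpf.1
      simpa using hj2
    have h5 : j ≠ 2 := by
      rintro rfl
      apply hpf.2
      simpa using hj2
    have h6 : i % 2 ≠ 0 := by omega
    simp [h6]

theorem par_sh (x : Morse) (k : ℤ) : par (sh k x) = xor (par x) (decide (k % 2 = 1)) := by
  obtain ⟨j, _, hj⟩ := exists_eq x 0
  rw [par_iff x hj]
  have h : (sh k x).1 (0 + j - k) = (sh k x).1 (0 + j - k + 1) := by
    change x.1 (0 + j - k + k) = x.1 (0 + j - k + 1 + k)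
    have e1 : (0 + j - k + k : ℤ) = 0 + j := by ring
    have e2 : (0 + j - k + 1 + k : ℤ) = 0 + j + 1 := by ring
    rw [e1, e2]
    exact hj
  rw [par_iff _ h]
  rcases Int.emod_two_eq_zero_or_one k with hk | hk <;>
    rcases Nat.mod_two_eq_zero_or_one j with hj | hj
  · have h1 : (0 + (j : ℤ) - k) % 2 = 0 := by omega
    have h2 : (0 + (j : ℤ)) % 2 = 0 := by omega
    rw [h1, h2, hk]
    rfl
  · have h1 : (0 + (j : ℤ) - k) % 2 = 1 := by omega
    have h2 : (0 + (j : ℤ)) % 2 = 1 := by omega
    rw [h1, h2, hk]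
    rfl
  · have h1 : (0 + (j : ℤ) - k) % 2 = 1 := by omega
    have h2 : (0 + (j : ℤ)) % 2 = 0 := by omega
    rw [h1, h2, hk]
    rfl
  · have h1 : (0 + (j : ℤ) - k) % 2 = 0 := by omega
    have h2 : (0 + (j : ℤ)) % 2 = 1 := by omega
    rw [h1, h2, hk]
    rfl

theorem block_false {x : Morse} (h : par x = false) (m : ℤ) : x.1 (2 * m + 1) = !x.1 (2 * m) := by
  by_contra hc
  have h1 : x.1 (2 * m) = x.1 (2 * m + 1) := by
    cases h1 : x.1 (2 * m) <;> cases h2 : x.1 (2 * m + 1) <;> simp [h1, h2] at hc ⊢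
  have h2 := par_iff x h1
  rw [h] at h2
  have h3 : (2 * m) % 2 = 0 := by omega
  simp [h3] at h2

theorem block_true {x : Morse} (h : par x = true) (m : ℤ) : x.1 (2 * m) = !x.1 (2 * m - 1) := by
  by_contra hc
  have h1 : x.1 (2 * m - 1) = x.1 (2 * m - 1 + 1) := by
    have e : 2 * m - 1 + 1 = 2 * m := by ring
    rw [e]
    cases h1 : x.1 (2 * m) <;> cases h2 : x.1 (2 * m - 1) <;> simp [h1, h2] at hc ⊢
  have h2 := par_iff x h1
  rw [h] at h2
  have h3 : (2 * m - 1) % 2 = 1 := by omega
  simp [h3] at h2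

/-- `1` if the first block begins at `-1` -/
def ep (x : Morse) : ℤ := if par x then 1 else 0

theorem block (x : Morse) (m : ℤ) : x.1 (2 * m - ep x + 1) = !x.1 (2 * m - ep x) := by
  unfold ep
  cases h : par x
  · simp only [Bool.false_eq_true, if_false, sub_zero]
    exact block_false h m
  · simp only [if_true]
    have e : 2 * m - 1 + 1 = 2 * m := by ring
    rw [e]
    exact block_true h m

theorem des_mem (x : Morse) : (fun m : ℤ => x.1 (2 * m - ep x)) ∈ Morse := by
  rw [mem_iff]
  intro i l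
  obtain ⟨a, p, hp⟩ := (mem_iff x.1).1 x.2 (2 * i - ep x) (2 * (l + 3))
  obtain ⟨j, hj4, hj⟩ := exists_eq x (2 * i - ep x)
  have hpj := par_iff x hj
  have hj2 : j % 2 = 1 := by
    unfold ep at hpj
    cases h : par x
    · rw [h] at hpj
      simp only [Bool.false_eq_true, if_false, sub_zero] at hpj
      have : (2 * i + (j : ℤ)) % 2 ≠ 0 := by simpa using hpj.symm
      omega
    · rw [h] at hpj
      simp only [if_true] at hpj
      have : (2 * i - 1 + (j : ℤ)) % 2 = 0 := by simpa using hpj.symm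
      omega
  have h1 := hp j (by omega)
  have h2 := hp (j + 1) (by omega)
  have h3 : tm (p + j) = tm (p + j + 1) := by
    have e : 2 * i - ep x + ((j + 1 : ℕ) : ℤ) = 2 * i - ep x + j + 1 := by push_cast; ring
    rw [e, ← hj, h1, ← Nat.add_assoc] at h2
    cases a <;> simpa using h2
  have h4 := tm_eq_odd h3
  obtain ⟨p', rfl⟩ : ∃ p', p = 2 * p' := ⟨p / 2, by omega⟩
  refine ⟨a, p', fun j hj => ?_⟩
  have h5 := hp (2 * j) (by omega)
  have e1 : 2 * (i + (j : ℤ)) - ep x = 2 * i - ep x + ((2 * j : ℕ) : ℤ) := by push_cast; ring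
  have e2 : 2 * p' + 2 * j = 2 * (p' + j) := by ring
  rw [e2, tm_even] at h5
  change x.1 (2 * (i + (j : ℤ)) - ep x) = _
  rw [e1, h5]

/-- desubstitution -/
def des (x : Morse) : Morse := ⟨_, des_mem x⟩

theorem mus_mem (x : Morse) :
    (fun i : ℤ => if i % 2 = 0 then x.1 (i / 2) else !x.1 (i / 2)) ∈ Morse := by
  rw [mem_iff]
  intro i l
  obtain ⟨a, p, hp⟩ := (mem_iff x.1).1 x.2 (i / 2) (l + 1)
  refine ⟨a, 2 * p + (i % 2).toNat, fun j hj => ?_⟩
  have hi := Int.emod_two_eq_zero_or_one i
  set r : ℕ := (i % 2).toNat with hr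
  have hr' : (r : ℤ) = i % 2 := by
    rw [hr]
    exact Int.toNat_of_nonneg (by omega)
  set k : ℕ := (r + j) / 2 with hk
  have h1 := hp k (by omega)
  have h2 : (i + (j : ℤ)) / 2 = i / 2 + k := by omega
  change (if (i + (j : ℤ)) % 2 = 0 then x.1 ((i + (j : ℤ)) / 2) else !x.1 ((i + (j : ℤ)) / 2)) = _
  rw [h2, h1]
  rcases Nat.mod_two_eq_zero_or_one (r + j) with h3 | h3
  · have h4 : (i + (j : ℤ)) % 2 = 0 := by omega
    have h5 : 2 * p + r + j = 2 * (p + k) := by omega
    rw [if_pos h4, h5, tm_even]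
  · have h4 : ¬ (i + (j : ℤ)) % 2 = 0 := by omega
    have h5 : 2 * p + r + j = 2 * (p + k) + 1 := by omega
    rw [if_neg h4, h5, tm_odd]
    cases a <;> cases tm (p + k) <;> rfl

/-- the substitution on sequences -/
def mus (x : Morse) : Morse := ⟨_, mus_mem x⟩

theorem mus_even (x : Morse) (m : ℤ) : (mus x).1 (2 * m) = x.1 m := by
  change (if (2 * m) % 2 = 0 then x.1 (2 * m / 2) else !x.1 (2 * m / 2)) = x.1 m
  have h1 : (2 * m) % 2 = 0 := by omega
  have h2 : 2 * m / 2 = m := by omega
  rw [if_pos h1, h2]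

theorem mus_odd (x : Morse) (m : ℤ) : (mus x).1 (2 * m + 1) = !x.1 m := by
  change (if (2 * m + 1) % 2 = 0 then x.1 ((2 * m + 1) / 2) else !x.1 ((2 * m + 1) / 2)) = !x.1 m
  have h1 : ¬ (2 * m + 1) % 2 = 0 := by omega
  have h2 : (2 * m + 1) / 2 = m := by omega
  rw [if_neg h1, h2]

theorem par_mus (x : Morse) : par (mus x) = false := by
  have h0 := mus_even x 0
  have h1 := mus_odd x 0
  have h2 := mus_even x 1
  have h3 := mus_odd x 1
  norm_num at h0 h1 h2 h3
  unfold par
  rw [h0, h1, h2, h3]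
  cases x.1 0 <;> cases x.1 1 <;> rfl

/-- the sequences over a given sequence -/
def psi (x : Morse) (e : Bool) : Morse := bif e then sh 1 (mus x) else mus x

theorem par_psi (x : Morse) (e : Bool) : par (psi x e) = e := by
  cases e
  · exact par_mus x
  · change par (sh 1 (mus x)) = true
    rw [par_sh, par_mus]
    rfl

theorem des_psi (x : Morse) (e : Bool) : des (psi x e) = x := by
  apply Subtype.ext
  funext m
  change (psi x e).1 (2 * m - ep (psi x e)) = x.1 m
  unfold ep
  rw [par_psi]
  cases e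
  · simp only [Bool.false_eq_true, if_false, sub_zero]
    exact mus_even x m
  · simp only [if_true]
    change (mus x).1 (2 * m - 1 + 1) = _
    have e : 2 * m - 1 + 1 = 2 * m := by ring
    rw [e]
    exact mus_even x m

theorem psi_des (x : Morse) : psi (des x) (par x) = x := by
  apply Subtype.ext
  funext i
  cases h : par x
  · change (mus (des x)).1 i = x.1 i
    have hd : ∀ m, (des x).1 m = x.1 (2 * m) := by
      intro m
      change x.1 (2 * m - ep x) = _
      unfold ep
      rw [h]
      simp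
    rcases Int.even_or_odd' i with ⟨m, rfl | rfl⟩
    · rw [mus_even, hd]
    · rw [mus_odd, hd, block_false h]
  · change (mus (des x)).1 (i + 1) = x.1 i
    have hd : ∀ m, (des x).1 m = x.1 (2 * m - 1) := by
      intro m
      change x.1 (2 * m - ep x) = _
      unfold ep
      rw [h]
      simp
    rcases Int.even_or_odd' i with ⟨m, rfl | rfl⟩
    · rw [mus_odd, hd, block_true h]
    · have e : 2 * m + 1 + 1 = 2 * (m + 1) := by ring
      rw [e, mus_even, hd]
      congr 1
      ring

theorem sh_mus (x : Morse) (k : ℤ) : mus (sh k x) = sh (2 * k) (mus x) := by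
  apply Subtype.ext
  funext i
  change (mus (sh k x)).1 i = (mus x).1 (i + 2 * k)
  rcases Int.even_or_odd' i with ⟨m, rfl | rfl⟩
  · have e : 2 * m + 2 * k = 2 * (m + k) := by ring
    rw [e, mus_even, mus_even]
    rfl
  · have e : 2 * m + 1 + 2 * k = 2 * (m + k) + 1 := by ring
    rw [e, mus_odd, mus_odd]
    rfl

theorem sh_sh (x : Morse) (k l : ℤ) : sh k (sh l x) = sh (k + l) x := by
  apply Subtype.ext
  funext i
  change x.1 (i + k + l) = x.1 (i + (k + l))
  congr 1
  ring

theorem sh_zero (x : Morse) : sh 0 x = x := by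
  apply Subtype.ext
  funext i
  change x.1 (i + 0) = x.1 i
  rw [add_zero]

end Pool.Agent.Y896.TF
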